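import Pool.Agent.Helper24.Neg.Num

/-!
# Numerics for the negation theorem (one family of cells)
-/

set_option autoImplicit false

namespace Pool.Agent.Helper24.Neg

open Finset

/-- The choice of the prime. -/
lemma exists_q1 {δ : ℝ} (hδ : 0 < δ) (s : ℕ) (hs : 1 ≤ s) (P : ℝ) (hP : 0 ≤ P) : ∃ q : ℕ,
    q.Prime ∧ s ≤ q ∧ 2 * P / (q : ℝ) ^ 2 ≤ δ / 4 ∧
    (q : ℝ) ^ 2 ≤ 12 * ((s : ℝ) ^ 2 + 8 * P / δ + 1) := by
  set y : ℝ := Real.sqrt (8 * P / δ) with hy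
  have hy0 : 0 ≤ 8 * P / δ := by positivity
  have hyy : y ^ 2 = 8 * P / δ := Real.sq_sqrt hy0
  have hynn : 0 ≤ y := Real.sqrt_nonneg _
  obtain ⟨q, hq, h1, h2⟩ := Nat.exists_prime_lt_and_le_two_mul (s + ⌈y⌉₊) (by omega)
  have hyc : y ≤ ⌈y⌉₊ := Nat.le_ceil _
  have hyc2 : (⌈y⌉₊ : ℝ) < y + 1 := Nat.ceil_lt_add_one hynn
  have h1' : (s : ℝ) + ⌈y⌉₊ ≤ q := by exact_mod_cast h1.le
  have h2' : (q : ℝ) ≤ 2 * (s + ⌈y⌉₊) := by exact_mod_cast h2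
  have hspos : (1 : ℝ) ≤ s := by exact_mod_cast hs
  have hq0 : (0 : ℝ) < q := by exact_mod_cast hq.pos
  refine ⟨q, hq, by omega, ?_, ?_⟩
  · have hyq : y ^ 2 ≤ (q : ℝ) ^ 2 := pow_le_pow_left₀ hynn (by linarith) 2
    rw [hyy, div_le_iff₀ hδ] at hyq
    rw [div_le_iff₀ (by positivity)]
    linarith
  · have h3 : (q : ℝ) ≤ 2 * (s + y + 1) := by linarith
    have h4 : (q : ℝ) ^ 2 ≤ (2 * (s + y + 1)) ^ 2 := pow_le_pow_left₀ hq0.le h3 2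
    rw [← hyy]
    nlinarith [sq_nonneg ((s : ℝ) - y), sq_nonneg ((s : ℝ) - 1), sq_nonneg (y - 1)]

/-- The common part of the parameters: `l`, `k`, the error bounds. -/
lemma common (δ : ℝ) (hδ : 0 < δ) (hδ1 : δ ≤ 1 / 2) : ∃ c B : ℝ, 0 < c ∧ 0 < B ∧
    ∀ S : ℕ, 2 ≤ S → ∃ l k : ℕ, 2 ≤ l ∧ 1 ≤ k ∧ (l : ℝ) ≤ c * Real.log S ∧
      (k : ℝ) ≤ B * Real.log S ^ 2 ∧ 8 ≤ δ * k ∧
      (l ^ 2 : ℝ) / k + S * ((l ^ 2 : ℝ) / k) ^ (l + 1) ≤ δ / 4 ∧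
      S * ((l : ℝ) / ((2 * l : ℕ) : ℝ)) ^ (l + 1) ≤ δ / 4 := by
  obtain ⟨a, ha⟩ : ∃ a : ℕ, 4 / δ ≤ (2 : ℝ) ^ a :=
    (pow_unbounded_of_one_lt (4 / δ) (by norm_num : (1 : ℝ) < 2)).imp fun _ h => h.le
  obtain ⟨c, hc⟩ : ∃ c : ℝ, c = 10 + 2 * a := ⟨_, rfl⟩
  have hc0 : 0 < c := by rw [hc]; positivity
  obtain ⟨B, hB⟩ : ∃ B : ℝ, B = 8 * c ^ 2 / δ + 4 := ⟨_, rfl⟩
  have hB0 : 0 < B := by rw [hB]; positivity
  refine ⟨c, B, hc0, hB0, ?_⟩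
  intro S hS
  have hL1 : 1 ≤ 2 * Real.log S := one_le_two_log hS
  obtain ⟨L, hL⟩ : ∃ L : ℝ, L = Real.log S := ⟨_, rfl⟩
  rw [← hL] at hL1
  rw [← hL]
  have hL0 : 0 < L := by linarith
  have hSpos : (0 : ℝ) < S := by positivity
  obtain ⟨p, hp1, hSp, hpL⟩ := exists_p hS
  rw [← hL] at hpL
  obtain ⟨l, hl⟩ : ∃ l : ℕ, l = 2 * p + a + 1 := ⟨_, rfl⟩
  have hl2 : 2 ≤ l := by omega
  have hlL : (l : ℝ) ≤ c * L := by
    rw [hl, hc]; push_cast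
    have h1 : (a : ℝ) * 1 ≤ a * (2 * L) := mul_le_mul_of_nonneg_left hL1 (Nat.cast_nonneg a)
    linarith
  have hl1 : (1 : ℝ) ≤ l := by exact_mod_cast (by omega : 1 ≤ l)
  have hlpos : (0 : ℝ) < l := by linarith
  obtain ⟨k, hk⟩ : ∃ k : ℕ, k = ⌈8 * (l : ℝ) ^ 2 / δ⌉₊ := ⟨_, rfl⟩
  have hkge : 8 * (l : ℝ) ^ 2 / δ ≤ k := by rw [hk]; exact Nat.le_ceil _
  have hklt : (k : ℝ) < 8 * (l : ℝ) ^ 2 / δ + 1 := by
    rw [hk]; exact Nat.ceil_lt_add_one (by positivity)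
  have hkpos : (0 : ℝ) < k := lt_of_lt_of_le (by positivity) hkge
  have hk1 : 1 ≤ k := by exact_mod_cast hkpos
  have hLL : 1 ≤ 4 * L ^ 2 := by
    have : 1 ≤ (2 * L) ^ 2 := one_le_pow₀ hL1
    linarith [mul_pow 2 L 2]
  have hkB : (k : ℝ) ≤ B * L ^ 2 := by
    have h1 : (l : ℝ) ^ 2 ≤ (c * L) ^ 2 := pow_le_pow_left₀ hlpos.le hlL 2
    have h2 : 8 * (l : ℝ) ^ 2 / δ ≤ 8 * c ^ 2 / δ * L ^ 2 := by
      rw [div_mul_eq_mul_div, div_le_div_iff_of_pos_right hδ]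
      linarith [mul_pow c L 2]
    rw [hB]; linarith
  have h2l : 4 * (S : ℝ) ^ 2 / δ ≤ 2 ^ (l + 1) := by
    have e1 : (2 : ℝ) ^ (l + 1) = 2 ^ p * 2 ^ p * 2 ^ a * 4 := by
      rw [hl]; ring
    rw [e1]
    have h1 : (S : ℝ) ^ 2 ≤ 2 ^ p * 2 ^ p := by
      rw [sq]; exact mul_le_mul hSp hSp hSpos.le (by positivity)
    calc 4 * (S : ℝ) ^ 2 / δ = (S : ℝ) ^ 2 * (4 / δ) := by ring
      _ ≤ (2 ^ p * 2 ^ p) * 2 ^ a := mul_le_mul h1 ha (by positivity) (by positivity)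
      _ ≤ 2 ^ p * 2 ^ p * 2 ^ a * 4 := by
          have : (0 : ℝ) < 2 ^ p * 2 ^ p * 2 ^ a := by positivity
          linarith
  have h2lpos : (0 : ℝ) < 2 ^ (l + 1) := by positivity
  have hlk : (l : ℝ) ^ 2 / k ≤ δ / 8 := by
    rw [div_le_iff₀ hkpos]
    rw [div_le_iff₀ hδ] at hkge
    linarith
  have hlk0 : 0 ≤ (l : ℝ) ^ 2 / k := by positivity
  have hτ : (l : ℝ) ^ 2 / k + S * ((l : ℝ) ^ 2 / k) ^ (l + 1) ≤ δ / 4 := by
    have h1 : ((l : ℝ) ^ 2 / k) ^ (l + 1) ≤ (δ / 8) * (1 / 2) ^ l := by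
      rw [pow_succ, mul_comm]
      apply mul_le_mul hlk _ (by positivity) (by positivity)
      exact pow_le_pow_left₀ hlk0 (by linarith) l
    have h2 : (S : ℝ) * (1 / 2) ^ l ≤ 1 := by
      rw [one_div, inv_pow, ← div_eq_mul_inv, div_le_one (by positivity)]
      have h3 : (S : ℝ) * 2 ≤ 4 * (S : ℝ) ^ 2 / δ := by
        rw [le_div_iff₀ hδ]
        have hS2 : (2 : ℝ) ≤ S := by exact_mod_cast hS
        nlinarith
      have h4 : (S : ℝ) * 2 ≤ 2 ^ l * 2 := by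
        calc (S : ℝ) * 2 ≤ 2 ^ (l + 1) := le_trans h3 h2l
          _ = 2 ^ l * 2 := pow_succ _ _
      linarith
    have h3 : (S : ℝ) * ((l : ℝ) ^ 2 / k) ^ (l + 1) ≤ δ / 8 := by
      calc (S : ℝ) * ((l : ℝ) ^ 2 / k) ^ (l + 1) ≤ S * ((δ / 8) * (1 / 2) ^ l) :=
            mul_le_mul_of_nonneg_left h1 hSpos.le
        _ = (δ / 8) * (S * (1 / 2) ^ l) := by ring
        _ ≤ (δ / 8) * 1 := mul_le_mul_of_nonneg_left h2 (by positivity)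
        _ = δ / 8 := by ring
    linarith
  have hhalf : ((l : ℝ) / ((2 * l : ℕ) : ℝ)) = 1 / 2 := by
    push_cast; field_simp
  have hζ : S * ((l : ℝ) / ((2 * l : ℕ) : ℝ)) ^ (l + 1) ≤ δ / 4 := by
    rw [hhalf, one_div, inv_pow, ← div_eq_mul_inv, div_le_iff₀ h2lpos]
    rw [div_le_iff₀ hδ] at h2l
    have hS2 : (S : ℝ) * 1 ≤ S * S := by
      apply mul_le_mul_of_nonneg_left _ hSpos.le
      exact_mod_cast (by omega : 1 ≤ S)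
    linarith
  have h8 : 8 ≤ δ * k := by
    have h1 : 8 * (l : ℝ) ^ 2 ≤ k * δ := by rwa [div_le_iff₀ hδ] at hkge
    have h2 : 1 ≤ (l : ℝ) ^ 2 := one_le_pow₀ hl1
    linarith
  exact ⟨l, k, hl2, hk1, hlL, hkB, h8, hτ, hζ⟩

/-- The parameters: for `δ ≤ 1 / 2` there is a constant `C` such that, whenever the conclusion of the
theorem fails, the hard distribution exists inside `n` vertices with total error less than `2 δ`. -/
theorem params3 (δ : ℝ) (hδ : 0 < δ) (hδ1 : δ ≤ 1 / 2) : ∃ C : ℝ, 0 < C ∧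
    ∀ (n K S : ℕ) (P : ℝ), 2 ≤ n → n ≤ S → 1 ≤ P →
      C * Real.log S ^ 2 * Real.log n ≤ K → K ≤ n →
      (C * Real.log S) ^ 14 * P < ((n : ℝ) - K) ^ 2 →
      ∃ (s k g l ρ : ℕ) (τ ζ : ℝ) (q : ℕ),
        2 ≤ s ∧ 2 ≤ l ∧ 1 ≤ ρ ∧ 1 ≤ g ∧ 1 ≤ k ∧
        (l ^ 2 : ℝ) / k + S * ((l ^ 2 : ℝ) / k) ^ (ρ + 1) ≤ τ ∧ τ ≤ 1 / 2 ∧
        S * ((ρ : ℝ) / g) ^ (l + 1) ≤ ζ ∧ q.Prime ∧ s ≤ q ∧ s ≤ K ∧
        s * (q * g) + (K - s) ≤ n ∧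
        (τ + ζ + 2 * P / (q : ℝ) ^ 2) +
          ((q * g : ℕ) : ℝ) ^ s * (1 - 1 / (k : ℝ)) ^ (s * (s - 1) / 2) < 2 * δ := by
  obtain ⟨c, B, hc0, hB0, hcom⟩ := common δ hδ hδ1
  obtain ⟨D, hD⟩ : ∃ D : ℝ, D = 4 * B + 24 := ⟨_, rfl⟩
  have hD0 : 24 < D := by rw [hD]; linarith
  have hD0' : 0 < D := by linarith
  obtain ⟨E, hE⟩ : ∃ E : ℝ, E = 12 * (D ^ 2 + 512 / δ + 64) := ⟨_, rfl⟩
  have hE0 : 0 < E := by rw [hE]; positivity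
  obtain ⟨C₁, hC1⟩ : ∃ C₁ : ℝ, C₁ = 4 * c ^ 2 * E * D ^ 2 := ⟨_, rfl⟩
  have hC10 : 0 < C₁ := by rw [hC1]; positivity
  refine ⟨C₁ + D, by linarith, ?_⟩
  intro n K S P hn hnS hP hK hKn hcon
  have hS : 2 ≤ S := le_trans hn hnS
  have hL1 : 1 ≤ 2 * Real.log S := one_le_two_log hS
  have hln1 : 1 ≤ 2 * Real.log n := one_le_two_log hn
  have hlnL : Real.log n ≤ Real.log S := Real.log_le_log (by positivity) (by exact_mod_cast hnS)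
  obtain ⟨l, k, hl2, hk1, hlL, hkB, h8k, hτ, hζ⟩ := hcom S hS
  obtain ⟨L, hL⟩ : ∃ L : ℝ, L = Real.log S := ⟨_, rfl⟩
  obtain ⟨ln, hln⟩ : ∃ ln : ℝ, ln = Real.log n := ⟨_, rfl⟩
  rw [← hL] at hL1 hlnL hK hcon hlL hkB
  rw [← hln] at hln1 hlnL hK
  have hL0 : 0 < L := by linarith
  have hln0 : 0 < ln := by linarith
  have hnpos : (0 : ℝ) < n := by positivity
  have hKn' : (K : ℝ) ≤ n := by exact_mod_cast hKn
  have hP0 : 0 < P := by linarith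
  have hl1 : (1 : ℝ) ≤ l := by exact_mod_cast (by omega : 1 ≤ l)
  have hlpos : (0 : ℝ) < l := by linarith
  have hkpos : (0 : ℝ) < k := by exact_mod_cast hk1
  have hLL : 1 ≤ 4 * L ^ 2 := by
    have : 1 ≤ (2 * L) ^ 2 := one_le_pow₀ hL1
    linarith [mul_pow 2 L 2]
  obtain ⟨s, hs⟩ : ∃ s : ℕ, s = ⌈4 * (k : ℝ) * ln⌉₊ + 2 := ⟨_, rfl⟩
  have hs2 : 2 ≤ s := by omega
  have hkln : 0 ≤ 4 * (k : ℝ) * ln := by
    apply mul_nonneg (by positivity); linarith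
  have hsge : 4 * (k : ℝ) * ln + 2 ≤ s := by
    rw [hs]; push_cast; linarith [Nat.le_ceil (4 * (k : ℝ) * ln)]
  have hslt : (s : ℝ) ≤ 4 * (k : ℝ) * ln + 3 := by
    rw [hs]; push_cast; linarith [Nat.ceil_lt_add_one hkln]
  have hsD : (s : ℝ) ≤ D * L ^ 2 * ln := by
    have h1 : 4 * (k : ℝ) * ln ≤ 4 * (B * L ^ 2) * ln := by
      apply mul_le_mul_of_nonneg_right _ (by linarith)
      linarith
    have h2 : 1 ≤ 8 * (L ^ 2 * ln) := by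
      have : 1 * 1 ≤ (4 * L ^ 2) * (2 * ln) := mul_le_mul hLL hln1 zero_le_one (by positivity)
      linarith
    rw [hD]; linarith
  have hsD3 : (s : ℝ) ≤ D * L ^ 3 := by
    have : D * L ^ 2 * ln ≤ D * L ^ 2 * L := mul_le_mul_of_nonneg_left hlnL (by positivity)
    calc (s : ℝ) ≤ D * L ^ 2 * L := le_trans hsD this
      _ = D * L ^ 3 := by ring
  have hspos : (0 : ℝ) < s := by exact_mod_cast (by omega : 0 < s)
  obtain ⟨q, hqp, hqs, hqe, hqub⟩ := exists_q1 hδ s (by omega) P hP0.le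
  have hsK : s ≤ K := by
    have h1 : (s : ℝ) ≤ (C₁ + D) * L ^ 2 * ln := by
      refine le_trans hsD ?_
      have : 0 ≤ C₁ * (L ^ 2 * ln) := by positivity
      linarith
    exact_mod_cast le_trans h1 hK
  -- the number of vertices
  have hUn : s * (q * (2 * l)) + (K - s) ≤ n := by
    by_contra hcontra
    push Not at hcontra
    have h0 : n < s * (q * (2 * l)) + K := by omega
    have h1 : (n : ℝ) - K < s * (q * (2 * l)) := by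
      have : (n : ℝ) < s * (q * (2 * l)) + K := by exact_mod_cast h0
      linarith
    have h2 : ((n : ℝ) - K) ^ 2 ≤ ((s : ℝ) * (q * (2 * l))) ^ 2 :=
      pow_le_pow_left₀ (by linarith) h1.le 2
    have hg2 : (2 * (l : ℝ)) ^ 2 ≤ 4 * c ^ 2 * L ^ 2 := by
      have := pow_le_pow_left₀ hlpos.le hlL 2
      linarith [mul_pow 2 (l : ℝ) 2, mul_pow c L 2]
    have h6 : (s : ℝ) ^ 2 ≤ D ^ 2 * L ^ 6 := by
      have := pow_le_pow_left₀ hspos.le hsD3 2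
      calc (s : ℝ) ^ 2 ≤ (D * L ^ 3) ^ 2 := this
        _ = D ^ 2 * L ^ 6 := by ring
    have h7 : 1 ≤ 64 * L ^ 6 := by
      have : 1 ≤ (2 * L) ^ 6 := one_le_pow₀ hL1
      calc (1 : ℝ) ≤ (2 * L) ^ 6 := this
        _ = 64 * L ^ 6 := by ring
    have h8 : 1 ≤ 64 * L ^ 6 * P := by
      calc (1 : ℝ) ≤ 64 * L ^ 6 := h7
        _ ≤ 64 * L ^ 6 * P := le_mul_of_one_le_right (by positivity) hP
    have h9 : 8 * P / δ ≤ 512 / δ * L ^ 6 * P := by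
      have h10 : 8 * P * 1 ≤ 8 * P * (64 * L ^ 6) := mul_le_mul_of_nonneg_left h7 (by positivity)
      calc 8 * P / δ ≤ 8 * P * (64 * L ^ 6) / δ := div_le_div_of_nonneg_right (by linarith) hδ.le
        _ = 512 / δ * L ^ 6 * P := by ring
    have h10 : (s : ℝ) ^ 2 ≤ D ^ 2 * L ^ 6 * P :=
      le_trans h6 (le_mul_of_one_le_right (by positivity) hP)
    have h11 : (q : ℝ) ^ 2 ≤ E * L ^ 6 * P := by
      refine le_trans hqub ?_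
      rw [hE]
      calc 12 * ((s : ℝ) ^ 2 + 8 * P / δ + 1)
          ≤ 12 * (D ^ 2 * L ^ 6 * P + 512 / δ * L ^ 6 * P + 64 * L ^ 6 * P) := by linarith
        _ = 12 * (D ^ 2 + 512 / δ + 64) * L ^ 6 * P := by ring
    have h3 : ((s : ℝ) * (q * (2 * l))) ^ 2 ≤ C₁ * L ^ 14 * P := by
      calc ((s : ℝ) * (q * (2 * l))) ^ 2 = (s : ℝ) ^ 2 * ((q : ℝ) ^ 2 * (2 * l) ^ 2) := by ring
        _ ≤ (D ^ 2 * L ^ 6) * ((E * L ^ 6 * P) * (4 * c ^ 2 * L ^ 2)) := by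
            apply mul_le_mul h6 _ (by positivity) (by positivity)
            exact mul_le_mul h11 hg2 (by positivity) (by positivity)
        _ = C₁ * L ^ 14 * P := by rw [hC1]; ring
    have h4 : C₁ * L ^ 14 * P ≤ ((C₁ + D) * L) ^ 14 * P := by
      apply mul_le_mul_of_nonneg_right _ hP0.le
      rw [mul_pow]
      apply mul_le_mul_of_nonneg_right _ (by positivity)
      have h5 : C₁ ≤ C₁ + D := by linarith
      have h6 : 1 ≤ C₁ + D := by linarith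
      calc C₁ ≤ C₁ + D := h5
        _ = (C₁ + D) ^ 1 := by ring
        _ ≤ (C₁ + D) ^ 14 := pow_le_pow_right₀ h6 (by norm_num)
    linarith
  have hUn' : q * (2 * l) ≤ n := by
    have : q * (2 * l) ≤ s * (q * (2 * l)) := Nat.le_mul_of_pos_left _ (by omega)
    omega
  have hend : ((q * (2 * l) : ℕ) : ℝ) ^ s * (1 - 1 / (k : ℝ)) ^ (s * (s - 1) / 2) ≤ δ := by
    apply end_error hδ hn hk1 hUn' hs2 (by rw [← hln]; linarith)
    have h2 : (k : ℝ) ≤ s := by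
      have : (k : ℝ) * 1 ≤ k * (2 * ln) := mul_le_mul_of_nonneg_left hln1 hkpos.le
      linarith
    have h3 : δ * k ≤ δ * s := mul_le_mul_of_nonneg_left h2 hδ.le
    linarith
  refine ⟨s, k, 2 * l, l, l, δ / 4, S * ((l : ℝ) / ((2 * l : ℕ) : ℝ)) ^ (l + 1), q, hs2, hl2,
    by omega, by omega, hk1, hτ, by linarith, le_rfl, hqp, hqs, hsK, hUn, ?_⟩
  linarith

/-- The parameters of the counting version. -/
theorem params4 (δ : ℝ) (hδ : 0 < δ) (hδ1 : δ ≤ 1 / 2) : ∃ C : ℝ, 0 < C ∧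
    ∀ (n S : ℕ) (P : ℝ), 2 ≤ n → n ≤ S → 1 ≤ P →
      (C * Real.log S) ^ 18 * P < (n : ℝ) ^ 2 →
      ∃ (s k g l ρ w₀ : ℕ) (τ ζ : ℝ) (q : ℕ),
        2 ≤ s ∧ 2 ≤ l ∧ 1 ≤ ρ ∧ 1 ≤ g ∧ 1 ≤ k ∧
        (l ^ 2 : ℝ) / k + S * ((l ^ 2 : ℝ) / k) ^ (ρ + 1) ≤ τ ∧ τ ≤ 1 / 2 ∧
        S * ((ρ : ℝ) / g) ^ (l + 1) ≤ ζ ∧ q.Prime ∧ s ≤ q ∧
        2 ≤ w₀ ∧ n ^ w₀ + 1 ≤ 2 ^ s ∧ s * (q * g) ≤ n ∧
        (τ + ζ + 2 * P / (q : ℝ) ^ 2) +
          (n : ℝ) ^ w₀ * (1 - 1 / (k : ℝ)) ^ (w₀ * (w₀ - 1) / 2) < 2 * δ := by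
  obtain ⟨c, B, hc0, hB0, hcom⟩ := common δ hδ hδ1
  obtain ⟨D, hD⟩ : ∃ D : ℝ, D = 4 * B + 24 := ⟨_, rfl⟩
  have hD0 : 24 < D := by rw [hD]; linarith
  have hD0' : 0 < D := by linarith
  obtain ⟨F, hF⟩ : ∃ F : ℝ, F = 4 * D + 16 := ⟨_, rfl⟩
  have hF0 : 0 < F := by rw [hF]; linarith
  obtain ⟨E, hE⟩ : ∃ E : ℝ, E = 12 * (F ^ 2 + 2048 / δ + 256) := ⟨_, rfl⟩
  have hE0 : 0 < E := by rw [hE]; positivity
  obtain ⟨C₁, hC1⟩ : ∃ C₁ : ℝ, C₁ = 4 * c ^ 2 * E * F ^ 2 := ⟨_, rfl⟩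
  have hC10 : 0 < C₁ := by rw [hC1]; positivity
  refine ⟨C₁ + D, by linarith, ?_⟩
  intro n S P hn hnS hP hcon
  have hS : 2 ≤ S := le_trans hn hnS
  have hL1 : 1 ≤ 2 * Real.log S := one_le_two_log hS
  have hln1 : 1 ≤ 2 * Real.log n := one_le_two_log hn
  have hlnL : Real.log n ≤ Real.log S := Real.log_le_log (by positivity) (by exact_mod_cast hnS)
  obtain ⟨l, k, hl2, hk1, hlL, hkB, h8k, hτ, hζ⟩ := hcom S hS
  obtain ⟨L, hL⟩ : ∃ L : ℝ, L = Real.log S := ⟨_, rfl⟩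
  obtain ⟨ln, hln⟩ : ∃ ln : ℝ, ln = Real.log n := ⟨_, rfl⟩
  rw [← hL] at hL1 hlnL hcon hlL hkB
  rw [← hln] at hln1 hlnL
  have hL0 : 0 < L := by linarith
  have hln0 : 0 < ln := by linarith
  have hnpos : (0 : ℝ) < n := by positivity
  have hP0 : 0 < P := by linarith
  have hl1 : (1 : ℝ) ≤ l := by exact_mod_cast (by omega : 1 ≤ l)
  have hlpos : (0 : ℝ) < l := by linarith
  have hkpos : (0 : ℝ) < k := by exact_mod_cast hk1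
  have hLL : 1 ≤ 4 * L ^ 2 := by
    have : 1 ≤ (2 * L) ^ 2 := one_le_pow₀ hL1
    linarith [mul_pow 2 L 2]
  obtain ⟨w, hw⟩ : ∃ w : ℕ, w = ⌈4 * (k : ℝ) * ln⌉₊ + 2 := ⟨_, rfl⟩
  have hw2 : 2 ≤ w := by omega
  have hkln : 0 ≤ 4 * (k : ℝ) * ln := by
    apply mul_nonneg (by positivity); linarith
  have hwge : 4 * (k : ℝ) * ln + 2 ≤ w := by
    rw [hw]; push_cast; linarith [Nat.le_ceil (4 * (k : ℝ) * ln)]
  have hwlt : (w : ℝ) ≤ 4 * (k : ℝ) * ln + 3 := by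
    rw [hw]; push_cast; linarith [Nat.ceil_lt_add_one hkln]
  have hwD : (w : ℝ) ≤ D * L ^ 2 * ln := by
    have h1 : 4 * (k : ℝ) * ln ≤ 4 * (B * L ^ 2) * ln := by
      apply mul_le_mul_of_nonneg_right _ (by linarith)
      linarith
    have h2 : 1 ≤ 8 * (L ^ 2 * ln) := by
      have : 1 * 1 ≤ (4 * L ^ 2) * (2 * ln) := mul_le_mul hLL hln1 zero_le_one (by positivity)
      linarith
    rw [hD]; linarith
  have hwD3 : (w : ℝ) ≤ D * L ^ 3 := by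
    have : D * L ^ 2 * ln ≤ D * L ^ 2 * L := mul_le_mul_of_nonneg_left hlnL (by positivity)
    calc (w : ℝ) ≤ D * L ^ 2 * L := le_trans hwD this
      _ = D * L ^ 3 := by ring
  obtain ⟨b, hb1, hnb, hbL⟩ := exists_p hn
  rw [← hln] at hbL
  obtain ⟨s, hs⟩ : ∃ s : ℕ, s = b * w + 1 := ⟨_, rfl⟩
  have hs2 : 2 ≤ s := by
    have : 1 * 1 ≤ b * w := Nat.mul_le_mul hb1 (by omega)
    omega
  have hsD3 : (s : ℝ) ≤ F * L ^ 4 := by
    have h1 : (b : ℝ) * w ≤ (4 * L) * (D * L ^ 3) :=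
      mul_le_mul (by linarith) hwD3 (by positivity) (by positivity)
    have h2 : 1 ≤ (2 * L) ^ 4 := one_le_pow₀ hL1
    have h3 : (2 * L) ^ 4 = 16 * L ^ 4 := by ring
    rw [hs, hF]; push_cast
    have h4 : (4 * L) * (D * L ^ 3) = 4 * D * L ^ 4 := by ring
    rw [h4] at h1
    linarith
  have hnw : n ^ w + 1 ≤ 2 ^ s := by
    have h1 : n ≤ 2 ^ b := by exact_mod_cast hnb
    have h2 : n ^ w ≤ 2 ^ (b * w) := by
      rw [pow_mul]; exact Nat.pow_le_pow_left h1 w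
    have h3 : 1 ≤ 2 ^ (b * w) := Nat.one_le_two_pow
    rw [hs, pow_succ]
    omega
  have hspos : (0 : ℝ) < s := by exact_mod_cast (by omega : 0 < s)
  have hspos' : (0 : ℝ) < s := hspos
  obtain ⟨q, hqp, hqs, hqe, hqub⟩ := exists_q1 hδ s (by omega) P hP0.le
  -- the number of vertices
  have hUn : s * (q * (2 * l)) ≤ n := by
    by_contra hcontra
    push Not at hcontra
    have h1 : (n : ℝ) < s * (q * (2 * l)) := by exact_mod_cast hcontra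
    have h2 : (n : ℝ) ^ 2 ≤ ((s : ℝ) * (q * (2 * l))) ^ 2 :=
      pow_le_pow_left₀ hnpos.le h1.le 2
    have hg2 : (2 * (l : ℝ)) ^ 2 ≤ 4 * c ^ 2 * L ^ 2 := by
      have := pow_le_pow_left₀ hlpos.le hlL 2
      linarith [mul_pow 2 (l : ℝ) 2, mul_pow c L 2]
    have h6 : (s : ℝ) ^ 2 ≤ F ^ 2 * L ^ 8 := by
      have := pow_le_pow_left₀ hspos.le hsD3 2
      calc (s : ℝ) ^ 2 ≤ (F * L ^ 4) ^ 2 := this
        _ = F ^ 2 * L ^ 8 := by ring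
    have h7 : 1 ≤ 256 * L ^ 8 := by
      have : 1 ≤ (2 * L) ^ 8 := one_le_pow₀ hL1
      calc (1 : ℝ) ≤ (2 * L) ^ 8 := this
        _ = 256 * L ^ 8 := by ring
    have h8 : 1 ≤ 256 * L ^ 8 * P := by
      calc (1 : ℝ) ≤ 256 * L ^ 8 := h7
        _ ≤ 256 * L ^ 8 * P := le_mul_of_one_le_right (by positivity) hP
    have h9 : 8 * P / δ ≤ 2048 / δ * L ^ 8 * P := by
      have h10 : 8 * P * 1 ≤ 8 * P * (256 * L ^ 8) := mul_le_mul_of_nonneg_left h7 (by positivity)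
      calc 8 * P / δ ≤ 8 * P * (256 * L ^ 8) / δ := div_le_div_of_nonneg_right (by linarith) hδ.le
        _ = 2048 / δ * L ^ 8 * P := by ring
    have h10 : (s : ℝ) ^ 2 ≤ F ^ 2 * L ^ 8 * P :=
      le_trans h6 (le_mul_of_one_le_right (by positivity) hP)
    have h11 : (q : ℝ) ^ 2 ≤ E * L ^ 8 * P := by
      refine le_trans hqub ?_
      rw [hE]
      calc 12 * ((s : ℝ) ^ 2 + 8 * P / δ + 1)
          ≤ 12 * (F ^ 2 * L ^ 8 * P + 2048 / δ * L ^ 8 * P + 256 * L ^ 8 * P) := by linarith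
        _ = 12 * (F ^ 2 + 2048 / δ + 256) * L ^ 8 * P := by ring
    have h3 : ((s : ℝ) * (q * (2 * l))) ^ 2 ≤ C₁ * L ^ 18 * P := by
      calc ((s : ℝ) * (q * (2 * l))) ^ 2 = (s : ℝ) ^ 2 * ((q : ℝ) ^ 2 * (2 * l) ^ 2) := by ring
        _ ≤ (F ^ 2 * L ^ 8) * ((E * L ^ 8 * P) * (4 * c ^ 2 * L ^ 2)) := by
            apply mul_le_mul h6 _ (by positivity) (by positivity)
            exact mul_le_mul h11 hg2 (by positivity) (by positivity)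
        _ = C₁ * L ^ 18 * P := by rw [hC1]; ring
    have h4 : C₁ * L ^ 18 * P ≤ ((C₁ + D) * L) ^ 18 * P := by
      apply mul_le_mul_of_nonneg_right _ hP0.le
      rw [mul_pow]
      apply mul_le_mul_of_nonneg_right _ (by positivity)
      have h5 : C₁ ≤ C₁ + D := by linarith
      have h6 : 1 ≤ C₁ + D := by linarith
      calc C₁ ≤ C₁ + D := h5
        _ = (C₁ + D) ^ 1 := by ring
        _ ≤ (C₁ + D) ^ 18 := pow_le_pow_right₀ h6 (by norm_num)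
    linarith
  have hend : (n : ℝ) ^ w * (1 - 1 / (k : ℝ)) ^ (w * (w - 1) / 2) ≤ δ := by
    apply end_error hδ hn hk1 le_rfl hw2 (by rw [← hln]; linarith)
    have h2 : (k : ℝ) ≤ w := by
      have : (k : ℝ) * 1 ≤ k * (2 * ln) := mul_le_mul_of_nonneg_left hln1 hkpos.le
      linarith
    have h3 : δ * k ≤ δ * w := mul_le_mul_of_nonneg_left h2 hδ.le
    linarith
  refine ⟨s, k, 2 * l, l, l, w, δ / 4, S * ((l : ℝ) / ((2 * l : ℕ) : ℝ)) ^ (l + 1), q, hs2, hl2,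
    by omega, by omega, hk1, hτ, by linarith, le_rfl, hqp, hqs, hw2, hnw, hUn, ?_⟩
  linarith

end Pool.Agent.Helper24.Neg
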