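import Pool.Agent.Helper71.Neg.Defs
import Pool.Agent.Helper24.Neg.Num3

/-!
# The negation theorems from their modules
-/

set_option autoImplicit false

namespace Pool.Agent.Helper24.Neg

open Finset Pool.Agent.Helper71.Neg

/-- The statement of module (2), one family of cells. -/
def ExistsHard2 : Prop := ∀ (s k g l ρ S : ℕ), 2 ≤ s → 2 ≤ l → 1 ≤ ρ → 1 ≤ g →
    1 ≤ k → ∀ (τ ζ : ℝ), (l ^ 2 : ℝ) / k + S * ((l ^ 2 : ℝ) / k) ^ (ρ + 1) ≤ τ →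
    τ ≤ 1 / 2 → S * ((ρ : ℝ) / g) ^ (l + 1) ≤ ζ → ∀ (t q : ℕ) (r : ℕ → ℕ),
    q.Prime → s ≤ q →
    ∃ (U Ω : Type) (_ : Fintype U) (_ : DecidableEq U) (_ : Fintype Ω) (_ : Nonempty Ω)
      (ng ps : Ω → Finset (Pr s U)),
      Fintype.card U = q * g ∧
      HardDist s k t S r
        (τ + ζ + 2 * (∏ m ∈ range t, (1 + (r (m + 1) : ℝ))) / (q : ℝ) ^ 2)
        U Ω ng ps

/-- The statement of module (3). -/
def EndClique2 : Prop := ∀ {s k t S : ℕ} {r : ℕ → ℕ} {err : ℝ} {U Ω : Type} [Fintype U]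
    [DecidableEq U] [Fintype Ω] [Nonempty Ω] {ng ps : Ω → Finset (Pr s U)}, 1 ≤ k → 2 ≤ s →
    HardDist s k t S r err U Ω ng ps →
    ∀ (n K : ℕ), s ≤ K → s * Fintype.card U + (K - s) ≤ n → ∀ (δ : ℝ)
    (Ω' : Type) [Fintype Ω'] (w : Ω' → ℝ) (f : Ω' → ℕ → SimpleGraph (Fin n) → Prop)
    (lev : Ω' → ℕ → ℕ) (A : Ω' → Finset ℕ) (inp : Ω' → ℕ → Finset ℕ) (out : Ω' → ℕ),
    (∀ ω, 0 ≤ w ω) → ∑ ω, w ω = 1 →
    (∀ ω, Circ (fun (e : Fin n × Fin n) (G : SimpleGraph (Fin n)) => G.Adj e.1 e.2) S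
      (f ω) (lev ω) (A ω) (inp ω)) →
    (∀ ω, ∀ i < S, lev ω i ≤ t) →
    (∀ ω m, 1 ≤ m → (reads (lev ω) (A ω) (inp ω) m).card ≤ r m) →
    (∀ ω, out ω < S) →
    (∀ G : SimpleGraph (Fin n), 1 / 2 + δ ≤
      ∑ ω, w ω * @ite ℝ (f ω (out ω) G ↔ ¬ G.CliqueFree K) (Classical.dec _) 1 0) →
    2 * δ ≤ err + (Fintype.card U : ℝ) ^ s * (1 - 1 / (k : ℝ)) ^ (s * (s - 1) / 2)

/-- The statement of module (3#); `numCl G` is the number of cliques of `G`. -/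
def EndCount2 (numCl : ∀ n : ℕ, SimpleGraph (Fin n) → ℕ) : Prop :=
  ∀ {s k t S : ℕ} {r : ℕ → ℕ} {err : ℝ} {U Ω : Type} [Fintype U]
    [DecidableEq U] [Fintype Ω] [Nonempty Ω] {ng ps : Ω → Finset (Pr s U)}, 1 ≤ k →
    ∀ (n : ℕ), 2 ≤ n → HardDist s k t (S + n + 2) r err U Ω ng ps →
    ∀ (w₀ : ℕ), 2 ≤ w₀ → n ^ w₀ + 1 ≤ 2 ^ s → s * Fintype.card U ≤ n → ∀ (δ : ℝ)
    (Ω' : Type) [Fintype Ω'] (w : Ω' → ℝ) (f : Ω' → ℕ → SimpleGraph (Fin n) → Prop)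
    (lev : Ω' → ℕ → ℕ) (A : Ω' → Finset ℕ) (inp : Ω' → ℕ → Finset ℕ) (out : Ω' → ℕ → ℕ),
    (∀ ω, 0 ≤ w ω) → ∑ ω, w ω = 1 →
    (∀ ω, Circ (fun (e : Fin n × Fin n) (G : SimpleGraph (Fin n)) => G.Adj e.1 e.2) S
      (f ω) (lev ω) (A ω) (inp ω)) →
    (∀ ω, ∀ i < S, lev ω i ≤ t) →
    (∀ ω m, 1 ≤ m → (reads (lev ω) (A ω) (inp ω) m).card ≤ r m) →
    (∀ ω b, b ≤ n → out ω b < S) →
    (∀ G : SimpleGraph (Fin n), 1 / 2 + δ ≤
      ∑ ω, w ω * @ite ℝ (∀ b ≤ n, (f ω (out ω b) G ↔ (numCl n G).testBit b = true))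
        (Classical.dec _) 1 0) →
    2 * δ ≤ err + ((n : ℝ)) ^ w₀ * (1 - 1 / (k : ℝ)) ^ (w₀ * (w₀ - 1) / 2)

lemma one_le_P (t : ℕ) (r : ℕ → ℕ) : (1 : ℝ) ≤ ∏ m ∈ range t, (1 + (r (m + 1) : ℝ)) := by
  have h := Finset.prod_le_prod (s := range t) (f := fun _ => (1 : ℝ))
    (g := fun m => (1 + (r (m + 1) : ℝ))) (fun _ _ => zero_le_one)
    (fun i _ => by
      have : (0 : ℝ) ≤ r (i + 1) := Nat.cast_nonneg _
      linarith)
  simpa using h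

/-- FINAL: from the two modules. -/
theorem neg_main2 (hE : ExistsHard2) (hCl : EndClique2) (δ : ℝ) (hδ : 0 < δ) : ∃ C : ℝ, 0 < C ∧
    ∀ (n K t S : ℕ) (r : ℕ → ℕ), 2 ≤ n → n ≤ S →
      C * Real.log S ^ 2 * Real.log n ≤ K → K ≤ n →
      ∀ (Ω' : Type) [Fintype Ω'] (w : Ω' → ℝ) (f : Ω' → ℕ → SimpleGraph (Fin n) → Prop)
        (lev : Ω' → ℕ → ℕ) (A : Ω' → Finset ℕ) (inp : Ω' → ℕ → Finset ℕ) (out : Ω' → ℕ),
        (∀ ω, 0 ≤ w ω) → ∑ ω, w ω = 1 →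
        (∀ ω, Circ (fun (e : Fin n × Fin n) (G : SimpleGraph (Fin n)) => G.Adj e.1 e.2) S
          (f ω) (lev ω) (A ω) (inp ω)) →
        (∀ ω, ∀ i < S, lev ω i ≤ t) →
        (∀ ω m, 1 ≤ m → (reads (lev ω) (A ω) (inp ω) m).card ≤ r m) →
        (∀ ω, out ω < S) →
        (∀ G : SimpleGraph (Fin n), 1 / 2 + δ ≤
          ∑ ω, w ω * @ite ℝ (f ω (out ω) G ↔ ¬ G.CliqueFree K) (Classical.dec _) 1 0) →
        ((n : ℝ) - K) ^ 2 ≤ (C * Real.log S) ^ 14 *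
          ∏ m ∈ range t, (1 + (r (m + 1) : ℝ)) := by
  rcases le_or_gt δ (1 / 2) with hδ1 | hδ1
  · obtain ⟨C, hC, H⟩ := params3 δ hδ hδ1
    refine ⟨C, hC, ?_⟩
    intro n K t S r hn hnS hK hKn Ω' _ w f lev A inp out hw hw1 hCirc hlev hr hout hsucc
    by_contra hcon
    push Not at hcon
    obtain ⟨s, k, g, l, ρ, τ, ζ, q, hs, hl, hρ, hg, hk, hτ, hτ2, hζ, hqp, hqs, hsK, hU, hlt⟩ :=
      H n K S _ hn hnS (one_le_P t r) hK hKn hcon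
    obtain ⟨U, Ω, i1, i2, i3, i4, ng, ps, hcard, hard⟩ :=
      hE s k g l ρ S hs hl hρ hg hk τ ζ hτ hτ2 hζ t q r hqp hqs
    have h := hCl hk hs hard n K hsK (by rw [hcard]; exact hU) δ Ω' w f lev A inp out hw hw1
      hCirc hlev hr hout hsucc
    rw [hcard] at h
    linarith
  · refine ⟨1, one_pos, ?_⟩
    intro n K t S r hn hnS hK hKn Ω' _ w f lev A inp out hw hw1 hCirc hlev hr hout hsucc
    exfalso
    have h1 := hsucc ⊥
    have h2 : ∑ ω, w ω * @ite ℝ (f ω (out ω) ⊥ ↔ ¬ (⊥ : SimpleGraph (Fin n)).CliqueFree K)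
        (Classical.dec _) 1 0 ≤ ∑ ω, w ω := by
      apply Finset.sum_le_sum
      intro ω _
      split_ifs
      · simp
      · simpa using hw ω
    linarith

/-- FINAL, counting version: from the two modules. -/
theorem neg_count2 (numCl : ∀ n : ℕ, SimpleGraph (Fin n) → ℕ) (hE : ExistsHard2)
    (hCt : EndCount2 numCl) (δ : ℝ) (hδ : 0 < δ) : ∃ C : ℝ, 0 < C ∧
    ∀ (n t S : ℕ) (r : ℕ → ℕ), 2 ≤ n → n ≤ S →
      ∀ (Ω' : Type) [Fintype Ω'] (w : Ω' → ℝ) (f : Ω' → ℕ → SimpleGraph (Fin n) → Prop)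
        (lev : Ω' → ℕ → ℕ) (A : Ω' → Finset ℕ) (inp : Ω' → ℕ → Finset ℕ) (out : Ω' → ℕ → ℕ),
        (∀ ω, 0 ≤ w ω) → ∑ ω, w ω = 1 →
        (∀ ω, Circ (fun (e : Fin n × Fin n) (G : SimpleGraph (Fin n)) => G.Adj e.1 e.2) S
          (f ω) (lev ω) (A ω) (inp ω)) →
        (∀ ω, ∀ i < S, lev ω i ≤ t) →
        (∀ ω m, 1 ≤ m → (reads (lev ω) (A ω) (inp ω) m).card ≤ r m) →
        (∀ ω b, b ≤ n → out ω b < S) →
        (∀ G : SimpleGraph (Fin n), 1 / 2 + δ ≤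
          ∑ ω, w ω * @ite ℝ (∀ b ≤ n, (f ω (out ω b) G ↔ (numCl n G).testBit b = true))
            (Classical.dec _) 1 0) →
        (n : ℝ) ^ 2 ≤ (C * Real.log S) ^ 18 *
          ∏ m ∈ range t, (1 + (r (m + 1) : ℝ)) := by
  rcases le_or_gt δ (1 / 2) with hδ1 | hδ1
  · obtain ⟨C, hC, H⟩ := params4 δ hδ hδ1
    refine ⟨C * 3, by linarith, ?_⟩
    intro n t S r hn hnS Ω' _ w f lev A inp out hw hw1 hCirc hlev hr hout hsucc
    by_contra hcon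
    push Not at hcon
    have hS : 2 ≤ S := le_trans hn hnS
    have hSpos : (0 : ℝ) < S := by exact_mod_cast (by omega : 0 < S)
    have hlog : Real.log ((S + n + 2 : ℕ) : ℝ) ≤ 3 * Real.log S := by
      have h1 : S + n + 2 ≤ S ^ 3 := by
        have h2 : 4 * S ≤ S ^ 3 := by
          calc 4 * S ≤ (S * S) * S := Nat.mul_le_mul_right S (by nlinarith)
            _ = S ^ 3 := by ring
        omega
      have h3 : 3 * Real.log S = Real.log ((S : ℝ) ^ 3) := by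
        rw [Real.log_pow]; norm_num
      rw [h3]
      apply Real.log_le_log
      · exact_mod_cast (by omega : 0 < S + n + 2)
      · exact_mod_cast h1
    have hlog0 : 0 ≤ Real.log ((S + n + 2 : ℕ) : ℝ) := Real.log_natCast_nonneg _
    have hprod : (0 : ℝ) ≤ ∏ m ∈ range t, (1 + (r (m + 1) : ℝ)) := by
      linarith [one_le_P t r]
    have hcon2 : (C * Real.log ((S + n + 2 : ℕ) : ℝ)) ^ 18 *
        ∏ m ∈ range t, (1 + (r (m + 1) : ℝ)) < (n : ℝ) ^ 2 := by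
      refine lt_of_le_of_lt ?_ hcon
      apply mul_le_mul_of_nonneg_right _ hprod
      apply pow_le_pow_left₀ (mul_nonneg hC.le hlog0)
      rw [mul_assoc]
      exact mul_le_mul_of_nonneg_left hlog hC.le
    obtain ⟨s, k, g, l, ρ, w₀, τ, ζ, q, hs, hl, hρ, hg, hk, hτ, hτ2, hζ, hqp, hqs, hw2, hnw, hU,
      hlt⟩ := H n (S + n + 2) _ hn (by omega) (one_le_P t r) hcon2
    obtain ⟨U, Ω, i1, i2, i3, i4, ng, ps, hcard, hard⟩ :=
      hE s k g l ρ (S + n + 2) hs hl hρ hg hk τ ζ hτ hτ2 hζ t q r hqp hqs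
    have h := hCt hk n hn hard w₀ hw2 hnw (by rw [hcard]; exact hU) δ Ω' w f lev A inp out hw hw1
      hCirc hlev hr hout hsucc
    linarith
  · refine ⟨1, one_pos, ?_⟩
    intro n t S r hn hnS Ω' _ w f lev A inp out hw hw1 hCirc hlev hr hout hsucc
    exfalso
    have h1 := hsucc ⊥
    have h2 : ∑ ω, w ω * @ite ℝ (∀ b ≤ n, (f ω (out ω b) ⊥ ↔
        (numCl n (⊥ : SimpleGraph (Fin n))).testBit b = true)) (Classical.dec _) 1 0 ≤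
        ∑ ω, w ω := by
      apply Finset.sum_le_sum
      intro ω _
      split_ifs
      · simp
      · simpa using hw ω
    linarith

end Pool.Agent.Helper24.Neg
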