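import Pool.Agent.Helper24.Neg.Final

/-!
# The counting version with the sharper right hand side
-/

set_option autoImplicit false

namespace Pool.Agent.Helper24.Neg

open Finset Pool.Agent.Helper71.Neg

/-- The parameters of the counting version. -/
theorem params5 (δ : ℝ) (hδ : 0 < δ) (hδ1 : δ ≤ 1 / 2) : ∃ C : ℝ, 0 < C ∧
    ∀ (n S : ℕ) (P : ℝ), 2 ≤ n → n ≤ S → 1 ≤ P →
      (C * Real.log S) ^ 10 * (P + (C * Real.log S) ^ 8) < (n : ℝ) ^ 2 →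
      ∃ (s k g l ρ w₀ : ℕ) (τ ζ : ℝ) (q : ℕ),
        2 ≤ s ∧ 2 ≤ l ∧ 1 ≤ ρ ∧ 1 ≤ g ∧ 1 ≤ k ∧
        (l ^ 2 : ℝ) / k + S * ((l ^ 2 : ℝ) / k) ^ (ρ + 1) ≤ τ ∧ τ ≤ 1 / 2 ∧
        S * ((ρ : ℝ) / g) ^ (l + 1) ≤ ζ ∧ q.Prime ∧ s ≤ q ∧
        2 ≤ w₀ ∧ n ^ w₀ + 1 ≤ 2 ^ s ∧ s * (q * g) ≤ n ∧
        (τ + ζ + 2 * P / (q : ℝ) ^ 2) +
          (n : ℝ) ^ w₀ * (1 - 1 / (k : ℝ)) ^ (w₀ * (w₀ - 1) / 2) < 2 * δ := by
  obtain ⟨c, B, hc0, hB0, hcom⟩ := common δ hδ hδ1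
  obtain ⟨D, hD⟩ : ∃ D : ℝ, D = 4 * B + 24 := ⟨_, rfl⟩
  have hD0 : 24 < D := by rw [hD]; linarith
  have hD0' : 0 < D := by linarith
  obtain ⟨F, hF⟩ : ∃ F : ℝ, F = 4 * D + 16 := ⟨_, rfl⟩
  have hF0 : 0 < F := by rw [hF]; linarith
  obtain ⟨E, hE⟩ : ∃ E : ℝ, E = 12 * (F ^ 2 + 8 / δ + 256) := ⟨_, rfl⟩
  have hE0 : 0 < E := by rw [hE]; positivity
  obtain ⟨C₁, hC1⟩ : ∃ C₁ : ℝ, C₁ = 4 * c ^ 2 * E * F ^ 2 := ⟨_, rfl⟩
  have hC10 : 0 < C₁ := by rw [hC1]; positivity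
  refine ⟨C₁ + D, by linarith, ?_⟩
  intro n S P hn hnS hP hcon
  have hS : 2 ≤ S := le_trans hn hnS
  have hL1 : 1 ≤ 2 * Real.log S := one_le_two_log hS
  have hln1 : 1 ≤ 2 * Real.log n := one_le_two_log hn
  have hlnL : Real.log n ≤ Real.log S := Real.log_le_log (by positivity) (by exact_mod_cast hnS)
  obtain ⟨l, k, hl2, hk1, hlL, hkB, h8k, hτ, hζ⟩ := hcom S hS
  obtain ⟨L, hL⟩ : ∃ L : ℝ, L = Real.log S := ⟨_, rfl⟩
  obtain ⟨ln, hln⟩ : ∃ ln : ℝ, ln = Real.log n := ⟨_, rfl⟩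
  rw [← hL] at hL1 hlnL hcon hlL hkB
  rw [← hln] at hln1 hlnL
  have hL0 : 0 < L := by linarith
  have hln0 : 0 < ln := by linarith
  have hnpos : (0 : ℝ) < n := by positivity
  have hP0 : 0 < P := by linarith
  have hl1 : (1 : ℝ) ≤ l := by exact_mod_cast (by omega : 1 ≤ l)
  have hlpos : (0 : ℝ) < l := by linarith
  have hkpos : (0 : ℝ) < k := by exact_mod_cast hk1
  have hLL : 1 ≤ 4 * L ^ 2 := by
    have : 1 ≤ (2 * L) ^ 2 := one_le_pow₀ hL1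
    linarith [mul_pow 2 L 2]
  obtain ⟨w, hw⟩ : ∃ w : ℕ, w = ⌈4 * (k : ℝ) * ln⌉₊ + 2 := ⟨_, rfl⟩
  have hw2 : 2 ≤ w := by omega
  have hkln : 0 ≤ 4 * (k : ℝ) * ln := by
    apply mul_nonneg (by positivity); linarith
  have hwge : 4 * (k : ℝ) * ln + 2 ≤ w := by
    rw [hw]; push_cast; linarith [Nat.le_ceil (4 * (k : ℝ) * ln)]
  have hwlt : (w : ℝ) ≤ 4 * (k : ℝ) * ln + 3 := by
    rw [hw]; push_cast; linarith [Nat.ceil_lt_add_one hkln]
  have hwD : (w : ℝ) ≤ D * L ^ 2 * ln := by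
    have h1 : 4 * (k : ℝ) * ln ≤ 4 * (B * L ^ 2) * ln := by
      apply mul_le_mul_of_nonneg_right _ (by linarith)
      linarith
    have h2 : 1 ≤ 8 * (L ^ 2 * ln) := by
      have : 1 * 1 ≤ (4 * L ^ 2) * (2 * ln) := mul_le_mul hLL hln1 zero_le_one (by positivity)
      linarith
    rw [hD]; linarith
  have hwD3 : (w : ℝ) ≤ D * L ^ 3 := by
    have : D * L ^ 2 * ln ≤ D * L ^ 2 * L := mul_le_mul_of_nonneg_left hlnL (by positivity)
    calc (w : ℝ) ≤ D * L ^ 2 * L := le_trans hwD this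
      _ = D * L ^ 3 := by ring
  obtain ⟨b, hb1, hnb, hbL⟩ := exists_p hn
  rw [← hln] at hbL
  obtain ⟨s, hs⟩ : ∃ s : ℕ, s = b * w + 1 := ⟨_, rfl⟩
  have hs2 : 2 ≤ s := by
    have : 1 * 1 ≤ b * w := Nat.mul_le_mul hb1 (by omega)
    omega
  have hsD3 : (s : ℝ) ≤ F * L ^ 4 := by
    have h1 : (b : ℝ) * w ≤ (4 * L) * (D * L ^ 3) :=
      mul_le_mul (by linarith) hwD3 (by positivity) (by positivity)
    have h2 : 1 ≤ (2 * L) ^ 4 := one_le_pow₀ hL1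
    have h3 : (2 * L) ^ 4 = 16 * L ^ 4 := by ring
    rw [hs, hF]; push_cast
    have h4 : (4 * L) * (D * L ^ 3) = 4 * D * L ^ 4 := by ring
    rw [h4] at h1
    linarith
  have hnw : n ^ w + 1 ≤ 2 ^ s := by
    have h1 : n ≤ 2 ^ b := by exact_mod_cast hnb
    have h2 : n ^ w ≤ 2 ^ (b * w) := by
      rw [pow_mul]; exact Nat.pow_le_pow_left h1 w
    have h3 : 1 ≤ 2 ^ (b * w) := Nat.one_le_two_pow
    rw [hs, pow_succ]
    omega
  have hspos : (0 : ℝ) < s := by exact_mod_cast (by omega : 0 < s)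
  have hspos' : (0 : ℝ) < s := hspos
  obtain ⟨q, hqp, hqs, hqe, hqub⟩ := exists_q1 hδ s (by omega) P hP0.le
  -- the number of vertices
  have hUn : s * (q * (2 * l)) ≤ n := by
    by_contra hcontra
    push Not at hcontra
    have h1 : (n : ℝ) < s * (q * (2 * l)) := by exact_mod_cast hcontra
    have h2 : (n : ℝ) ^ 2 ≤ ((s : ℝ) * (q * (2 * l))) ^ 2 :=
      pow_le_pow_left₀ hnpos.le h1.le 2
    have hg2 : (2 * (l : ℝ)) ^ 2 ≤ 4 * c ^ 2 * L ^ 2 := by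
      have := pow_le_pow_left₀ hlpos.le hlL 2
      linarith [mul_pow 2 (l : ℝ) 2, mul_pow c L 2]
    have h6 : (s : ℝ) ^ 2 ≤ F ^ 2 * L ^ 8 := by
      have := pow_le_pow_left₀ hspos.le hsD3 2
      calc (s : ℝ) ^ 2 ≤ (F * L ^ 4) ^ 2 := this
        _ = F ^ 2 * L ^ 8 := by ring
    have h7 : 1 ≤ 256 * L ^ 8 := by
      have : 1 ≤ (2 * L) ^ 8 := one_le_pow₀ hL1
      calc (1 : ℝ) ≤ (2 * L) ^ 8 := this
        _ = 256 * L ^ 8 := by ring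
    have hL8 : 0 ≤ L ^ 8 := by positivity
    have h11 : (q : ℝ) ^ 2 ≤ E * (P + L ^ 8) := by
      refine le_trans hqub ?_
      rw [hE]
      have e1 : 0 ≤ (F ^ 2 + 256) * P := by positivity
      have e2 : 0 ≤ 8 / δ * L ^ 8 := by positivity
      calc 12 * ((s : ℝ) ^ 2 + 8 * P / δ + 1)
          ≤ 12 * (F ^ 2 * L ^ 8 + 8 / δ * P + 256 * L ^ 8) := by
            have e3 : 8 * P / δ = 8 / δ * P := by ring
            rw [e3]; linarith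
        _ ≤ 12 * (F ^ 2 * L ^ 8 + 8 / δ * P + 256 * L ^ 8) +
            12 * ((F ^ 2 + 256) * P + 8 / δ * L ^ 8) := by linarith
        _ = 12 * (F ^ 2 + 8 / δ + 256) * (P + L ^ 8) := by ring
    have h3 : ((s : ℝ) * (q * (2 * l))) ^ 2 ≤ C₁ * L ^ 10 * (P + L ^ 8) := by
      calc ((s : ℝ) * (q * (2 * l))) ^ 2 = (s : ℝ) ^ 2 * ((q : ℝ) ^ 2 * (2 * l) ^ 2) := by ring
        _ ≤ (F ^ 2 * L ^ 8) * ((E * (P + L ^ 8)) * (4 * c ^ 2 * L ^ 2)) := by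
            apply mul_le_mul h6 _ (by positivity) (by positivity)
            exact mul_le_mul h11 hg2 (by positivity) (by positivity)
        _ = C₁ * L ^ 10 * (P + L ^ 8) := by rw [hC1]; ring
    have hC1' : 1 ≤ C₁ + D := by linarith
    have h4 : C₁ * L ^ 10 ≤ ((C₁ + D) * L) ^ 10 := by
      rw [mul_pow]
      apply mul_le_mul_of_nonneg_right _ (by positivity)
      calc C₁ ≤ C₁ + D := by linarith
        _ = (C₁ + D) ^ 1 := by ring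
        _ ≤ (C₁ + D) ^ 10 := pow_le_pow_right₀ hC1' (by norm_num)
    have h5 : L ^ 8 ≤ ((C₁ + D) * L) ^ 8 := by
      rw [mul_pow]
      exact le_mul_of_one_le_left hL8 (one_le_pow₀ hC1')
    have h9 : C₁ * L ^ 10 * (P + L ^ 8) ≤
        ((C₁ + D) * L) ^ 10 * (P + ((C₁ + D) * L) ^ 8) :=
      mul_le_mul h4 (by linarith) (by positivity) (by positivity)
    linarith
  have hend : (n : ℝ) ^ w * (1 - 1 / (k : ℝ)) ^ (w * (w - 1) / 2) ≤ δ := by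
    apply end_error hδ hn hk1 le_rfl hw2 (by rw [← hln]; linarith)
    have h2 : (k : ℝ) ≤ w := by
      have : (k : ℝ) * 1 ≤ k * (2 * ln) := mul_le_mul_of_nonneg_left hln1 hkpos.le
      linarith
    have h3 : δ * k ≤ δ * w := mul_le_mul_of_nonneg_left h2 hδ.le
    linarith
  refine ⟨s, k, 2 * l, l, l, w, δ / 4, S * ((l : ℝ) / ((2 * l : ℕ) : ℝ)) ^ (l + 1), q, hs2, hl2,
    by omega, by omega, hk1, hτ, by linarith, le_rfl, hqp, hqs, hw2, hnw, hUn, ?_⟩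
  linarith

/-- FINAL, counting version: from the two modules. -/
theorem neg_count3 (numCl : ∀ n : ℕ, SimpleGraph (Fin n) → ℕ) (hE : ExistsHard2)
    (hCt : EndCount2 numCl) (δ : ℝ) (hδ : 0 < δ) : ∃ C : ℝ, 0 < C ∧
    ∀ (n t S : ℕ) (r : ℕ → ℕ), 2 ≤ n → n ≤ S →
      ∀ (Ω' : Type) [Fintype Ω'] (w : Ω' → ℝ) (f : Ω' → ℕ → SimpleGraph (Fin n) → Prop)
        (lev : Ω' → ℕ → ℕ) (A : Ω' → Finset ℕ) (inp : Ω' → ℕ → Finset ℕ) (out : Ω' → ℕ → ℕ),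
        (∀ ω, 0 ≤ w ω) → ∑ ω, w ω = 1 →
        (∀ ω, Circ (fun (e : Fin n × Fin n) (G : SimpleGraph (Fin n)) => G.Adj e.1 e.2) S
          (f ω) (lev ω) (A ω) (inp ω)) →
        (∀ ω, ∀ i < S, lev ω i ≤ t) →
        (∀ ω m, 1 ≤ m → (reads (lev ω) (A ω) (inp ω) m).card ≤ r m) →
        (∀ ω b, b ≤ n → out ω b < S) →
        (∀ G : SimpleGraph (Fin n), 1 / 2 + δ ≤
          ∑ ω, w ω * @ite ℝ (∀ b ≤ n, (f ω (out ω b) G ↔ (numCl n G).testBit b = true))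
            (Classical.dec _) 1 0) →
        (n : ℝ) ^ 2 ≤ (C * Real.log S) ^ 10 *
          (∏ m ∈ range t, (1 + (r (m + 1) : ℝ)) + (C * Real.log S) ^ 8) := by
  rcases le_or_gt δ (1 / 2) with hδ1 | hδ1
  · obtain ⟨C, hC, H⟩ := params5 δ hδ hδ1
    refine ⟨C * 3, by linarith, ?_⟩
    intro n t S r hn hnS Ω' _ w f lev A inp out hw hw1 hCirc hlev hr hout hsucc
    by_contra hcon
    push Not at hcon
    have hS : 2 ≤ S := le_trans hn hnS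
    have hSpos : (0 : ℝ) < S := by exact_mod_cast (by omega : 0 < S)
    have hlog : Real.log ((S + n + 2 : ℕ) : ℝ) ≤ 3 * Real.log S := by
      have h1 : S + n + 2 ≤ S ^ 3 := by
        have h2 : 4 * S ≤ S ^ 3 := by
          calc 4 * S ≤ (S * S) * S := Nat.mul_le_mul_right S (by nlinarith)
            _ = S ^ 3 := by ring
        omega
      have h3 : 3 * Real.log S = Real.log ((S : ℝ) ^ 3) := by
        rw [Real.log_pow]; norm_num
      rw [h3]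
      apply Real.log_le_log
      · exact_mod_cast (by omega : 0 < S + n + 2)
      · exact_mod_cast h1
    have hlog0 : 0 ≤ Real.log ((S + n + 2 : ℕ) : ℝ) := Real.log_natCast_nonneg _
    have hprod : (0 : ℝ) ≤ ∏ m ∈ range t, (1 + (r (m + 1) : ℝ)) := by
      linarith [one_le_P t r]
    have hcon2 : (C * Real.log ((S + n + 2 : ℕ) : ℝ)) ^ 10 *
        (∏ m ∈ range t, (1 + (r (m + 1) : ℝ)) + (C * Real.log ((S + n + 2 : ℕ) : ℝ)) ^ 8) <
        (n : ℝ) ^ 2 := by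
      refine lt_of_le_of_lt ?_ hcon
      have hb0 : 0 ≤ C * Real.log ((S + n + 2 : ℕ) : ℝ) := mul_nonneg hC.le hlog0
      have hb1 : C * Real.log ((S + n + 2 : ℕ) : ℝ) ≤ C * 3 * Real.log S := by
        rw [mul_assoc]
        exact mul_le_mul_of_nonneg_left hlog hC.le
      have hp8 := pow_le_pow_left₀ hb0 hb1 8
      have hp10 := pow_le_pow_left₀ hb0 hb1 10
      have h80 : 0 ≤ (C * Real.log ((S + n + 2 : ℕ) : ℝ)) ^ 8 := pow_nonneg hb0 8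
      apply mul_le_mul hp10 (by linarith) (by linarith) (le_trans (pow_nonneg hb0 10) hp10)
    obtain ⟨s, k, g, l, ρ, w₀, τ, ζ, q, hs, hl, hρ, hg, hk, hτ, hτ2, hζ, hqp, hqs, hw2, hnw, hU,
      hlt⟩ := H n (S + n + 2) _ hn (by omega) (one_le_P t r) hcon2
    obtain ⟨U, Ω, i1, i2, i3, i4, ng, ps, hcard, hard⟩ :=
      hE s k g l ρ (S + n + 2) hs hl hρ hg hk τ ζ hτ hτ2 hζ t q r hqp hqs
    have h := hCt hk n hn hard w₀ hw2 hnw (by rw [hcard]; exact hU) δ Ω' w f lev A inp out hw hw1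
      hCirc hlev hr hout hsucc
    linarith
  · refine ⟨1, one_pos, ?_⟩
    intro n t S r hn hnS Ω' _ w f lev A inp out hw hw1 hCirc hlev hr hout hsucc
    exfalso
    have h1 := hsucc ⊥
    have h2 : ∑ ω, w ω * @ite ℝ (∀ b ≤ n, (f ω (out ω b) ⊥ ↔
        (numCl n (⊥ : SimpleGraph (Fin n))).testBit b = true)) (Classical.dec _) 1 0 ≤
        ∑ ω, w ω := by
      apply Finset.sum_le_sum
      intro ω _
      split_ifs
      · simp
      · simpa using hw ω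
    linarith

end Pool.Agent.Helper24.Neg
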