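import Mathlib

/-!
# Numerics for the negation-level theorem
-/

set_option autoImplicit false

namespace Pool.Agent.Helper24.Neg

open Finset

lemma one_le_two_log {n : ℕ} (hn : 2 ≤ n) : 1 ≤ 2 * Real.log n := by
  have h2 : Real.log 2 ≤ Real.log n := Real.log_le_log (by norm_num) (by exact_mod_cast hn)
  have := Real.log_two_gt_d9
  linarith

/-- A natural number `p` of order `log S` with `S ≤ 2 ^ p`. -/
lemma exists_p {S : ℕ} (hS : 2 ≤ S) : ∃ p : ℕ, 1 ≤ p ∧ (S : ℝ) ≤ 2 ^ p ∧ (p : ℝ) ≤ 4 * Real.log S := by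
  have hL := one_le_two_log hS
  have hlog2 := Real.log_two_gt_d9
  have hSpos : (0 : ℝ) < S := by positivity
  refine ⟨⌈Real.log S / Real.log 2⌉₊, ?_, ?_, ?_⟩
  · apply Nat.one_le_ceil_iff.mpr
    apply div_pos <;> linarith
  · have h1 : Real.log S / Real.log 2 ≤ (⌈Real.log S / Real.log 2⌉₊ : ℝ) := Nat.le_ceil _
    have h2 : Real.log S ≤ (⌈Real.log S / Real.log 2⌉₊ : ℝ) * Real.log 2 := by
      rwa [div_le_iff₀ (by linarith)] at h1
    have h3 : Real.log S ≤ Real.log (2 ^ ⌈Real.log S / Real.log 2⌉₊) := by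
      rw [Real.log_pow]; exact h2
    exact (Real.log_le_log_iff hSpos (by positivity)).mp h3
  · have h1 : (⌈Real.log S / Real.log 2⌉₊ : ℝ) < Real.log S / Real.log 2 + 1 :=
      Nat.ceil_lt_add_one (by apply div_nonneg <;> linarith)
    have h2 : Real.log S / Real.log 2 ≤ 2 * Real.log S := by
      rw [div_le_iff₀ (by linarith)]
      nlinarith
    linarith

/-- The final error term. -/
lemma end_error {n k s U : ℕ} {δ : ℝ} (hδ : 0 < δ) (hn : 2 ≤ n) (hk : 1 ≤ k) (hU : U ≤ n)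
    (hs2 : 2 ≤ s) (hs : 4 * (k : ℝ) * Real.log n + 1 ≤ (s : ℝ) - 1) (hsδ : 1 ≤ δ * s) :
    (U : ℝ) ^ s * (1 - 1 / (k : ℝ)) ^ (s * (s - 1) / 2) ≤ δ := by
  have hkpos : (0 : ℝ) < k := by exact_mod_cast hk
  have hk1 : (1 : ℝ) ≤ k := by exact_mod_cast hk
  have hnpos : (0 : ℝ) < n := by positivity
  have hspos : (0 : ℝ) < s := by positivity
  have hlogn := one_le_two_log hn
  have hj : ((s * (s - 1) / 2 : ℕ) : ℝ) = (s : ℝ) * ((s : ℝ) - 1) / 2 := by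
    have h2 : 2 ∣ s * (s - 1) := by
      have := Nat.even_mul_pred_self s
      exact this.two_dvd
    rw [Nat.cast_div h2 (by norm_num), Nat.cast_mul, Nat.cast_sub (by omega)]
    push_cast; ring
  have h0 : 0 ≤ 1 - 1 / (k : ℝ) := by
    have : 1 / (k : ℝ) ≤ 1 := by rw [div_le_one hkpos]; exact hk1
    linarith
  have h1 : 1 - 1 / (k : ℝ) ≤ Real.exp (-(1 / (k : ℝ))) := by
    have := Real.add_one_le_exp (-(1 / (k : ℝ)))
    linarith
  have h2 : (1 - 1 / (k : ℝ)) ^ (s * (s - 1) / 2) ≤ Real.exp (-(2 * s * Real.log n)) := by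
    calc (1 - 1 / (k : ℝ)) ^ (s * (s - 1) / 2) ≤ Real.exp (-(1 / (k : ℝ))) ^ (s * (s - 1) / 2) :=
          pow_le_pow_left₀ h0 h1 _
      _ = Real.exp (((s * (s - 1) / 2 : ℕ) : ℝ) * (-(1 / (k : ℝ)))) := by
          rw [← Real.exp_nat_mul]
      _ ≤ Real.exp (-(2 * s * Real.log n)) := by
          apply Real.exp_le_exp.mpr
          rw [hj]
          have : 2 * s * Real.log n ≤ (s : ℝ) * ((s : ℝ) - 1) / 2 * (1 / (k : ℝ)) := by
            rw [mul_one_div, le_div_iff₀ hkpos]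
            nlinarith [mul_le_mul_of_nonneg_left hs hspos.le]
          linarith
  have h3 : Real.exp (-(2 * s * Real.log n)) = 1 / ((n : ℝ) ^ s * (n : ℝ) ^ s) := by
    rw [Real.exp_neg]
    have : Real.exp (2 * s * Real.log n) = (n : ℝ) ^ s * (n : ℝ) ^ s := by
      have e1 : 2 * s * Real.log n = ((2 * s : ℕ) : ℝ) * Real.log n := by push_cast; ring
      rw [e1, Real.exp_nat_mul, Real.exp_log hnpos, two_mul, pow_add]
    rw [this, one_div]
  have h4 : (U : ℝ) ^ s ≤ (n : ℝ) ^ s := pow_le_pow_left₀ (by positivity) (by exact_mod_cast hU) _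
  have h5 : (s : ℝ) ≤ (n : ℝ) ^ s := by
    have : s < n ^ s := lt_of_lt_of_le (Nat.lt_two_pow_self) (Nat.pow_le_pow_left hn s)
    exact_mod_cast this.le
  have h6 : 0 < (n : ℝ) ^ s := by positivity
  calc (U : ℝ) ^ s * (1 - 1 / (k : ℝ)) ^ (s * (s - 1) / 2)
      ≤ (n : ℝ) ^ s * (1 / ((n : ℝ) ^ s * (n : ℝ) ^ s)) := by
        rw [← h3]
        exact mul_le_mul h4 h2 (pow_nonneg h0 _) (by positivity)
    _ = 1 / (n : ℝ) ^ s := by field_simp
    _ ≤ δ := by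
        rw [div_le_iff₀ h6]
        nlinarith

/-- The choice of the primes. -/
lemma exists_q {δ : ℝ} (hδ : 0 < δ) (s t : ℕ) (hs : 1 ≤ s) (r : ℕ) : ∃ q : ℕ, q.Prime ∧ s ≤ q ∧
    2 * (t : ℝ) * (2 * (r : ℝ) / (q : ℝ) ^ 2) ≤ δ / 2 ∧
    (q : ℝ) ^ 2 ≤ 12 * ((s : ℝ) ^ 2 + 8 * t * r / δ + 1) := by
  set y : ℝ := Real.sqrt (8 * t * r / δ) with hy
  have hy0 : 0 ≤ 8 * (t : ℝ) * r / δ := by positivity
  have hyy : y ^ 2 = 8 * t * r / δ := Real.sq_sqrt hy0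
  have hynn : 0 ≤ y := Real.sqrt_nonneg _
  obtain ⟨q, hq, h1, h2⟩ := Nat.exists_prime_lt_and_le_two_mul (s + ⌈y⌉₊) (by omega)
  have hyc : y ≤ ⌈y⌉₊ := Nat.le_ceil _
  have hyc2 : (⌈y⌉₊ : ℝ) < y + 1 := Nat.ceil_lt_add_one hynn
  have h1' : (s : ℝ) + ⌈y⌉₊ ≤ q := by exact_mod_cast h1.le
  have h2' : (q : ℝ) ≤ 2 * (s + ⌈y⌉₊) := by exact_mod_cast h2
  have hspos : (1 : ℝ) ≤ s := by exact_mod_cast hs
  have hq0 : (0 : ℝ) < q := by exact_mod_cast hq.pos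
  refine ⟨q, hq, by omega, ?_, ?_⟩
  · have hyq : y ^ 2 ≤ (q : ℝ) ^ 2 := pow_le_pow_left₀ hynn (by linarith) 2
    rw [hyy, div_le_iff₀ hδ] at hyq
    have e : 2 * (t : ℝ) * (2 * (r : ℝ) / (q : ℝ) ^ 2) = (4 * t * r) / (q : ℝ) ^ 2 := by ring
    rw [e, div_le_iff₀ (by positivity)]
    linarith
  · have h3 : (q : ℝ) ≤ 2 * (s + y + 1) := by linarith
    have h4 : (q : ℝ) ^ 2 ≤ (2 * (s + y + 1)) ^ 2 := pow_le_pow_left₀ hq0.le h3 2
    rw [← hyy]
    nlinarith [sq_nonneg ((s : ℝ) - y), sq_nonneg ((s : ℝ) - 1), sq_nonneg (y - 1)]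

set_option maxHeartbeats 4000000 in
/-- The parameters: for `δ ≤ 1 / 2` there is a constant `C` such that, whenever the conclusion of the
theorem fails, the hard distribution exists inside `n` vertices with total error less than `2 δ`. -/
theorem params (δ : ℝ) (hδ : 0 < δ) (hδ1 : δ ≤ 1 / 2) : ∃ C : ℝ, 0 < C ∧
    ∀ (n K t S : ℕ) (r : ℕ → ℕ), 2 ≤ n → n ≤ S →
      C * Real.log S ^ 2 * Real.log n ≤ K → K ≤ n →
      (C * Real.log S) ^ (8 * (t + 1)) * ∏ m ∈ range t, (1 + (r (m + 1) : ℝ)) < ((n : ℝ) - K) ^ 2 →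
      ∃ (s k g l ρ : ℕ) (τ ζ : ℝ) (q : ℕ → ℕ),
        2 ≤ s ∧ 2 ≤ l ∧ 1 ≤ ρ ∧ 1 ≤ g ∧ 1 ≤ k ∧
        (l ^ 2 : ℝ) / k + S * ((l ^ 2 : ℝ) / k) ^ (ρ + 1) ≤ τ ∧ τ ≤ 1 / 2 ∧
        S * ((ρ : ℝ) / g) ^ (l + 1) ≤ ζ ∧ (∀ m, (q m).Prime ∧ s ≤ q m) ∧ s ≤ K ∧
        s * (g * ∏ m ∈ range t, (q (m + 1) * g)) + (K - s) ≤ n ∧
        (τ + (t + 1) * ζ + ∑ m ∈ range t, 2 * (r (m + 1) : ℝ) / (q (m + 1) : ℝ) ^ 2) +
          (((g * ∏ m ∈ range t, (q (m + 1) * g) : ℕ) : ℝ)) ^ s *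
            (1 - 1 / (k : ℝ)) ^ (s * (s - 1) / 2) < 2 * δ := by
  obtain ⟨a, ha⟩ : ∃ a : ℕ, 4 / δ ≤ (2 : ℝ) ^ a :=
    (pow_unbounded_of_one_lt (4 / δ) (by norm_num : (1 : ℝ) < 2)).imp fun _ h => h.le
  obtain ⟨c, hc⟩ : ∃ c : ℝ, c = 10 + 2 * a := ⟨_, rfl⟩
  have hc0 : 0 < c := by rw [hc]; positivity
  obtain ⟨B, hB⟩ : ∃ B : ℝ, B = 8 * c ^ 2 / δ + 4 := ⟨_, rfl⟩
  have hB0 : 0 < B := by rw [hB]; positivity
  obtain ⟨D, hD⟩ : ∃ D : ℝ, D = 4 * B + 24 := ⟨_, rfl⟩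
  have hD0 : 24 < D := by rw [hD]; linarith
  obtain ⟨E, hE⟩ : ∃ E : ℝ, E = 12 * (D ^ 2 + 256 / δ + 64) := ⟨_, rfl⟩
  have hE0 : 0 < E := by rw [hE]; positivity
  have hDE : D ^ 2 ≤ E := by
    have : 0 < 256 / δ := by positivity
    nlinarith [sq_nonneg D]
  obtain ⟨C₁, hC1⟩ : ∃ C₁ : ℝ, C₁ = 4 * c ^ 2 * E := ⟨_, rfl⟩
  have hC10 : 0 < C₁ := by rw [hC1]; positivity
  refine ⟨C₁ + D, by linarith, ?_⟩
  intro n K t S r hn hnS hK hKn hcon
  have hS : 2 ≤ S := le_trans hn hnS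
  have hL1 : 1 ≤ 2 * Real.log S := one_le_two_log hS
  have hln1 : 1 ≤ 2 * Real.log n := one_le_two_log hn
  have hlnL : Real.log n ≤ Real.log S := Real.log_le_log (by positivity) (by exact_mod_cast hnS)
  obtain ⟨L, hL⟩ : ∃ L : ℝ, L = Real.log S := ⟨_, rfl⟩
  obtain ⟨ln, hln⟩ : ∃ ln : ℝ, ln = Real.log n := ⟨_, rfl⟩
  rw [← hL] at hL1 hlnL hK hcon
  rw [← hln] at hln1 hlnL hK
  have hL0 : 0 < L := by linarith
  have hln0 : 0 < ln := by linarith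
  have hD0' : 0 < D := by linarith
  have hnpos : (0 : ℝ) < n := by positivity
  have hSpos : (0 : ℝ) < S := by positivity
  have hprod1 : (1 : ℝ) ≤ ∏ m ∈ range t, (1 + (r (m + 1) : ℝ)) := by
    have h := Finset.prod_le_prod (s := range t) (f := fun _ => (1 : ℝ))
      (g := fun m => (1 + (r (m + 1) : ℝ))) (fun _ _ => zero_le_one)
      (fun i _ => by
        have : (0 : ℝ) ≤ r (i + 1) := Nat.cast_nonneg _
        linarith)
    simpa using h
  have hKn' : (K : ℝ) ≤ n := by exact_mod_cast hKn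
  -- the number of levels is at most `log S`
  have ht : (t : ℝ) ≤ L := by
    by_contra hcontra
    push Not at hcontra
    have hCL : Real.exp 1 ≤ (C₁ + D) * L := by
      have := Real.exp_one_lt_d9
      have h24 : 24 * L ≤ (C₁ + D) * L := mul_le_mul_of_nonneg_right (by linarith) hL0.le
      linarith
    have h1 : Real.exp 1 ^ (8 * (t + 1)) ≤ ((C₁ + D) * L) ^ (8 * (t + 1)) :=
      pow_le_pow_left₀ (Real.exp_pos 1).le hCL _
    have h2 : (S : ℝ) ^ 2 ≤ Real.exp 1 ^ (8 * (t + 1)) := by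
      have e1 : (S : ℝ) ^ 2 = Real.exp (2 * L) := by
        rw [hL, two_mul, Real.exp_add, Real.exp_log hSpos, sq]
      rw [e1, ← Real.exp_nat_mul]
      apply Real.exp_le_exp.mpr
      push_cast
      linarith
    have h3 : ((n : ℝ) - K) ^ 2 ≤ (S : ℝ) ^ 2 := by
      apply pow_le_pow_left₀ (by linarith)
      have : (n : ℝ) ≤ S := by exact_mod_cast hnS
      have : (0 : ℝ) ≤ K := Nat.cast_nonneg _
      linarith
    have h4 : ((C₁ + D) * L) ^ (8 * (t + 1)) ≤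
        ((C₁ + D) * L) ^ (8 * (t + 1)) * ∏ m ∈ range t, (1 + (r (m + 1) : ℝ)) := by
      apply le_mul_of_one_le_right _ hprod1
      positivity
    linarith
  obtain ⟨p, hp1, hSp, hpL⟩ := exists_p hS
  rw [← hL] at hpL
  obtain ⟨l, hl⟩ : ∃ l : ℕ, l = 2 * p + a + 1 := ⟨_, rfl⟩
  have hl2 : 2 ≤ l := by omega
  have hlL : (l : ℝ) ≤ c * L := by
    rw [hl, hc]; push_cast
    have h1 : (a : ℝ) * 1 ≤ a * (2 * L) := mul_le_mul_of_nonneg_left hL1 (Nat.cast_nonneg a)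
    linarith
  have hl1 : (1 : ℝ) ≤ l := by exact_mod_cast (by omega : 1 ≤ l)
  have hlpos : (0 : ℝ) < l := by linarith
  obtain ⟨k, hk⟩ : ∃ k : ℕ, k = ⌈8 * (l : ℝ) ^ 2 / δ⌉₊ := ⟨_, rfl⟩
  have hkge : 8 * (l : ℝ) ^ 2 / δ ≤ k := by rw [hk]; exact Nat.le_ceil _
  have hklt : (k : ℝ) < 8 * (l : ℝ) ^ 2 / δ + 1 := by
    rw [hk]; exact Nat.ceil_lt_add_one (by positivity)
  have hkpos : (0 : ℝ) < k := lt_of_lt_of_le (by positivity) hkge
  have hk1 : 1 ≤ k := by exact_mod_cast hkpos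
  have hLL : 1 ≤ 4 * L ^ 2 := by
    have : 1 ≤ (2 * L) ^ 2 := one_le_pow₀ hL1
    linarith [mul_pow 2 L 2]
  have hkB : (k : ℝ) ≤ B * L ^ 2 := by
    have h1 : (l : ℝ) ^ 2 ≤ (c * L) ^ 2 := pow_le_pow_left₀ hlpos.le hlL 2
    have h2 : 8 * (l : ℝ) ^ 2 / δ ≤ 8 * c ^ 2 / δ * L ^ 2 := by
      rw [div_mul_eq_mul_div, div_le_div_iff_of_pos_right hδ]
      linarith [mul_pow c L 2]
    rw [hB]; linarith
  obtain ⟨s, hs⟩ : ∃ s : ℕ, s = ⌈4 * (k : ℝ) * ln⌉₊ + 2 := ⟨_, rfl⟩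
  have hs2 : 2 ≤ s := by omega
  have hkln : 0 ≤ 4 * (k : ℝ) * ln := by
    apply mul_nonneg (by positivity); linarith
  have hsge : 4 * (k : ℝ) * ln + 2 ≤ s := by
    rw [hs]; push_cast; linarith [Nat.le_ceil (4 * (k : ℝ) * ln)]
  have hslt : (s : ℝ) ≤ 4 * (k : ℝ) * ln + 3 := by
    rw [hs]; push_cast; linarith [Nat.ceil_lt_add_one hkln]
  have hsD : (s : ℝ) ≤ D * L ^ 2 * ln := by
    have h1 : 4 * (k : ℝ) * ln ≤ 4 * (B * L ^ 2) * ln := by
      apply mul_le_mul_of_nonneg_right _ (by linarith)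
      linarith
    have h2 : 1 ≤ 8 * (L ^ 2 * ln) := by
      have : 1 * 1 ≤ (4 * L ^ 2) * (2 * ln) := mul_le_mul hLL hln1 zero_le_one (by positivity)
      linarith
    rw [hD]; linarith
  have hsD3 : (s : ℝ) ≤ D * L ^ 3 := by
    have : D * L ^ 2 * ln ≤ D * L ^ 2 * L := mul_le_mul_of_nonneg_left hlnL (by positivity)
    calc (s : ℝ) ≤ D * L ^ 2 * L := le_trans hsD this
      _ = D * L ^ 3 := by ring
  have hspos : (0 : ℝ) < s := by exact_mod_cast (by omega : 0 < s)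
  choose q hqp hqs hqe hqub using fun m => exists_q hδ s t (by omega) (r m)
  have hsK : s ≤ K := by
    have h1 : (s : ℝ) ≤ (C₁ + D) * L ^ 2 * ln := by
      refine le_trans hsD ?_
      have : 0 ≤ C₁ * (L ^ 2 * ln) := by positivity
      linarith
    exact_mod_cast le_trans h1 hK
  -- the number of vertices
  obtain ⟨U, hU⟩ : ∃ U : ℕ, U = (2 * l) * ∏ m ∈ range t, (q (m + 1) * (2 * l)) := ⟨_, rfl⟩
  have hUn : s * U + (K - s) ≤ n := by
    by_contra hcontra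
    push Not at hcontra
    have h0 : n < s * U + K := by omega
    have h1 : (n : ℝ) - K < s * U := by
      have : (n : ℝ) < s * U + K := by exact_mod_cast h0
      linarith
    have h2 : ((n : ℝ) - K) ^ 2 ≤ ((s : ℝ) * U) ^ 2 := pow_le_pow_left₀ (by linarith) h1.le 2
    have h3 : ((s : ℝ) * U) ^ 2 ≤ (C₁ * L ^ 8) ^ (t + 1) * ∏ m ∈ range t, (1 + (r (m + 1) : ℝ)) := by
      have hUc : (U : ℝ) = (2 * l) * ∏ m ∈ range t, ((q (m + 1) : ℝ) * (2 * l)) := by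
        rw [hU]; push_cast; rfl
      have e1 : ((s : ℝ) * U) ^ 2 = ((s : ℝ) ^ 2 * (2 * l) ^ 2) *
          ∏ m ∈ range t, ((q (m + 1) : ℝ) ^ 2 * (2 * l) ^ 2) := by
        rw [hUc, mul_pow, mul_pow, ← Finset.prod_pow]
        rw [← mul_assoc]
        congr 1
        apply Finset.prod_congr rfl
        intro i _
        rw [mul_pow]
      have hg2 : (2 * (l : ℝ)) ^ 2 ≤ 4 * c ^ 2 * L ^ 2 := by
        have := pow_le_pow_left₀ hlpos.le hlL 2
        linarith [mul_pow 2 (l : ℝ) 2, mul_pow c L 2]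
      have hf0 : (s : ℝ) ^ 2 * (2 * l) ^ 2 ≤ C₁ * L ^ 8 := by
        have h5 : (s : ℝ) ^ 2 ≤ (D * L ^ 3) ^ 2 := pow_le_pow_left₀ hspos.le hsD3 2
        have h6 : (D * L ^ 3) ^ 2 ≤ E * L ^ 6 := by
          have : (D * L ^ 3) ^ 2 = D ^ 2 * L ^ 6 := by ring
          rw [this]
          exact mul_le_mul_of_nonneg_right hDE (by positivity)
        calc (s : ℝ) ^ 2 * (2 * l) ^ 2 ≤ (E * L ^ 6) * (4 * c ^ 2 * L ^ 2) :=
              mul_le_mul (le_trans h5 h6) hg2 (by positivity) (by positivity)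
          _ = C₁ * L ^ 8 := by rw [hC1]; ring
      have hf : ∀ m ∈ range t, (q (m + 1) : ℝ) ^ 2 * (2 * l) ^ 2 ≤
          (C₁ * L ^ 8) * (1 + (r (m + 1) : ℝ)) := by
        intro m _
        have hr0 : (0 : ℝ) ≤ r (m + 1) := Nat.cast_nonneg _
        have h5 : (q (m + 1) : ℝ) ^ 2 ≤ E * L ^ 6 * (1 + (r (m + 1) : ℝ)) := by
          refine le_trans (hqub (m + 1)) ?_
          have h6 : (s : ℝ) ^ 2 ≤ D ^ 2 * L ^ 6 := by
            have := pow_le_pow_left₀ hspos.le hsD3 2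
            calc (s : ℝ) ^ 2 ≤ (D * L ^ 3) ^ 2 := this
              _ = D ^ 2 * L ^ 6 := by ring
          have h2L : 1 ≤ (2 * L) ^ 5 := one_le_pow₀ hL1
          have h7 : L ≤ 32 * L ^ 6 := by
            have : L * 1 ≤ L * (2 * L) ^ 5 := mul_le_mul_of_nonneg_left h2L (by linarith)
            calc L = L * 1 := by ring
              _ ≤ L * (2 * L) ^ 5 := this
              _ = 32 * L ^ 6 := by ring
          have h8 : 1 ≤ 64 * L ^ 6 := by
            have : 1 ≤ (2 * L) ^ 6 := one_le_pow₀ hL1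
            calc (1 : ℝ) ≤ (2 * L) ^ 6 := this
              _ = 64 * L ^ 6 := by ring
          have h9 : 8 * (t : ℝ) * r (m + 1) / δ ≤ 256 / δ * L ^ 6 * (1 + (r (m + 1) : ℝ)) := by
            have h10 : 8 * (t : ℝ) * r (m + 1) ≤ 256 * L ^ 6 * (1 + (r (m + 1) : ℝ)) := by
              have h11 : (t : ℝ) ≤ 32 * L ^ 6 := le_trans ht h7
              have h12 : (t : ℝ) * r (m + 1) ≤ 32 * L ^ 6 * r (m + 1) :=
                mul_le_mul_of_nonneg_right h11 hr0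
              have h13 : 0 ≤ L ^ 6 := by positivity
              linarith
            calc 8 * (t : ℝ) * r (m + 1) / δ ≤ 256 * L ^ 6 * (1 + (r (m + 1) : ℝ)) / δ :=
                  div_le_div_of_nonneg_right h10 hδ.le
              _ = 256 / δ * L ^ 6 * (1 + (r (m + 1) : ℝ)) := by ring
          have h14 : (s : ℝ) ^ 2 ≤ D ^ 2 * L ^ 6 * (1 + (r (m + 1) : ℝ)) := by
            have : 0 ≤ D ^ 2 * L ^ 6 * (r (m + 1) : ℝ) := by positivity
            linarith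
          have h15 : 1 ≤ 64 * L ^ 6 * (1 + (r (m + 1) : ℝ)) := by
            have : 0 ≤ 64 * L ^ 6 * (r (m + 1) : ℝ) := by positivity
            linarith
          rw [hE]
          calc 12 * ((s : ℝ) ^ 2 + 8 * t * r (m + 1) / δ + 1)
              ≤ 12 * (D ^ 2 * L ^ 6 * (1 + (r (m + 1) : ℝ)) +
                256 / δ * L ^ 6 * (1 + (r (m + 1) : ℝ)) + 64 * L ^ 6 * (1 + (r (m + 1) : ℝ))) := by
                linarith
            _ = 12 * (D ^ 2 + 256 / δ + 64) * L ^ 6 * (1 + (r (m + 1) : ℝ)) := by ring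
        calc (q (m + 1) : ℝ) ^ 2 * (2 * l) ^ 2
            ≤ (E * L ^ 6 * (1 + (r (m + 1) : ℝ))) * (4 * c ^ 2 * L ^ 2) :=
              mul_le_mul h5 hg2 (by positivity) (by positivity)
          _ = (C₁ * L ^ 8) * (1 + (r (m + 1) : ℝ)) := by rw [hC1]; ring
      rw [e1]
      calc ((s : ℝ) ^ 2 * (2 * l) ^ 2) * ∏ m ∈ range t, ((q (m + 1) : ℝ) ^ 2 * (2 * l) ^ 2)
          ≤ (C₁ * L ^ 8) * ∏ m ∈ range t, ((C₁ * L ^ 8) * (1 + (r (m + 1) : ℝ))) := by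
            apply mul_le_mul hf0 _ (by positivity) (by positivity)
            apply Finset.prod_le_prod
            · intro i _; positivity
            · exact hf
        _ = (C₁ * L ^ 8) ^ (t + 1) * ∏ m ∈ range t, (1 + (r (m + 1) : ℝ)) := by
            rw [Finset.prod_mul_distrib, Finset.prod_const, Finset.card_range, pow_succ]
            ring
    have h4 : (C₁ * L ^ 8) ^ (t + 1) ≤ ((C₁ + D) * L) ^ (8 * (t + 1)) := by
      rw [pow_mul]
      apply pow_le_pow_left₀ (by positivity)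
      rw [mul_pow]
      apply mul_le_mul_of_nonneg_right _ (by positivity)
      have h5 : C₁ ≤ C₁ + D := by linarith
      have h6 : 1 ≤ C₁ + D := by linarith
      calc C₁ ≤ C₁ + D := h5
        _ = (C₁ + D) ^ 1 := by ring
        _ ≤ (C₁ + D) ^ 8 := pow_le_pow_right₀ h6 (by norm_num)
    have h5 : (C₁ * L ^ 8) ^ (t + 1) * ∏ m ∈ range t, (1 + (r (m + 1) : ℝ)) ≤
        ((C₁ + D) * L) ^ (8 * (t + 1)) * ∏ m ∈ range t, (1 + (r (m + 1) : ℝ)) :=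
      mul_le_mul_of_nonneg_right h4 (by linarith)
    linarith
  have hUn' : U ≤ n := by
    have : U ≤ s * U := Nat.le_mul_of_pos_left _ (by omega)
    omega
  -- the errors
  have h2l : 4 * (S : ℝ) ^ 2 / δ ≤ 2 ^ (l + 1) := by
    have e1 : (2 : ℝ) ^ (l + 1) = 2 ^ p * 2 ^ p * 2 ^ a * 4 := by
      rw [hl]; ring
    rw [e1]
    have h1 : (S : ℝ) ^ 2 ≤ 2 ^ p * 2 ^ p := by
      rw [sq]; exact mul_le_mul hSp hSp hSpos.le (by positivity)
    calc 4 * (S : ℝ) ^ 2 / δ = (S : ℝ) ^ 2 * (4 / δ) := by ring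
      _ ≤ (2 ^ p * 2 ^ p) * 2 ^ a := mul_le_mul h1 ha (by positivity) (by positivity)
      _ ≤ 2 ^ p * 2 ^ p * 2 ^ a * 4 := by
          have : (0 : ℝ) < 2 ^ p * 2 ^ p * 2 ^ a := by positivity
          linarith
  have h2lpos : (0 : ℝ) < 2 ^ (l + 1) := by positivity
  have htS : (t : ℝ) + 1 ≤ S := by
    have : L ≤ (S : ℝ) - 1 := by rw [hL]; exact Real.log_le_sub_one_of_pos hSpos
    linarith
  have hlk : (l : ℝ) ^ 2 / k ≤ δ / 8 := by
    rw [div_le_iff₀ hkpos]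
    rw [div_le_iff₀ hδ] at hkge
    linarith
  have hlk0 : 0 ≤ (l : ℝ) ^ 2 / k := by positivity
  have hτ : (l : ℝ) ^ 2 / k + S * ((l : ℝ) ^ 2 / k) ^ (l + 1) ≤ δ / 4 := by
    have h1 : ((l : ℝ) ^ 2 / k) ^ (l + 1) ≤ (δ / 8) * (1 / 2) ^ l := by
      rw [pow_succ, mul_comm]
      apply mul_le_mul hlk _ (by positivity) (by positivity)
      exact pow_le_pow_left₀ hlk0 (by linarith) l
    have h2 : (S : ℝ) * (1 / 2) ^ l ≤ 1 := by
      rw [one_div, inv_pow, ← div_eq_mul_inv, div_le_one (by positivity)]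
      have h3 : (S : ℝ) * 2 ≤ 4 * (S : ℝ) ^ 2 / δ := by
        rw [le_div_iff₀ hδ]
        have hS2 : (2 : ℝ) ≤ S := by exact_mod_cast hS
        nlinarith
      have h4 : (S : ℝ) * 2 ≤ 2 ^ l * 2 := by
        calc (S : ℝ) * 2 ≤ 2 ^ (l + 1) := le_trans h3 h2l
          _ = 2 ^ l * 2 := pow_succ _ _
      linarith
    have h3 : (S : ℝ) * ((l : ℝ) ^ 2 / k) ^ (l + 1) ≤ δ / 8 := by
      calc (S : ℝ) * ((l : ℝ) ^ 2 / k) ^ (l + 1) ≤ S * ((δ / 8) * (1 / 2) ^ l) :=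
            mul_le_mul_of_nonneg_left h1 hSpos.le
        _ = (δ / 8) * (S * (1 / 2) ^ l) := by ring
        _ ≤ (δ / 8) * 1 := mul_le_mul_of_nonneg_left h2 (by positivity)
        _ = δ / 8 := by ring
    linarith
  have hhalf : ((l : ℝ) / ((2 * l : ℕ) : ℝ)) = 1 / 2 := by
    push_cast; field_simp
  have hζ : ((t : ℝ) + 1) * (S * ((l : ℝ) / ((2 * l : ℕ) : ℝ)) ^ (l + 1)) ≤ δ / 4 := by
    rw [hhalf, one_div, inv_pow]
    have h1 : ((t : ℝ) + 1) * (S * (2 ^ (l + 1))⁻¹) ≤ S * (S * (2 ^ (l + 1))⁻¹) :=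
      mul_le_mul_of_nonneg_right htS (by positivity)
    have h2 : (S : ℝ) * (S * (2 ^ (l + 1))⁻¹) ≤ δ / 4 := by
      rw [← mul_assoc, ← div_eq_mul_inv, div_le_iff₀ h2lpos]
      rw [div_le_iff₀ hδ] at h2l
      linarith
    linarith
  have hsum : ∑ m ∈ range t, 2 * (r (m + 1) : ℝ) / (q (m + 1) : ℝ) ^ 2 ≤ δ / 4 := by
    rcases Nat.eq_zero_or_pos t with ht0 | ht0
    · subst ht0
      simp
      linarith
    · have htpos : (0 : ℝ) < t := by exact_mod_cast ht0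
      calc ∑ m ∈ range t, 2 * (r (m + 1) : ℝ) / (q (m + 1) : ℝ) ^ 2
          ≤ ∑ _m ∈ range t, (δ / 4) / t := by
            apply Finset.sum_le_sum
            intro m _
            rw [le_div_iff₀ htpos]
            linarith [hqe (m + 1)]
        _ = δ / 4 := by
            rw [Finset.sum_const, Finset.card_range, nsmul_eq_mul]
            field_simp
  have hend : ((U : ℕ) : ℝ) ^ s * (1 - 1 / (k : ℝ)) ^ (s * (s - 1) / 2) ≤ δ := by
    apply end_error hδ hn hk1 hUn' hs2 (by rw [← hln]; linarith)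
    have h1 : 8 ≤ δ * k := by
      have : 8 * (l : ℝ) ^ 2 ≤ k * δ := by rwa [div_le_iff₀ hδ] at hkge
      have h2 : 1 ≤ (l : ℝ) ^ 2 := one_le_pow₀ hl1
      linarith
    have h2 : (k : ℝ) ≤ s := by
      have : (k : ℝ) * 1 ≤ k * (2 * ln) := mul_le_mul_of_nonneg_left hln1 hkpos.le
      linarith
    have h3 : δ * k ≤ δ * s := mul_le_mul_of_nonneg_left h2 hδ.le
    linarith
  rw [hU] at hUn hend
  refine ⟨s, k, 2 * l, l, l, δ / 4, S * ((l : ℝ) / ((2 * l : ℕ) : ℝ)) ^ (l + 1), q, hs2, hl2,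
    by omega, by omega, hk1, hτ, by linarith, le_rfl, fun m => ⟨hqp m, hqs m⟩, hsK, hUn, ?_⟩
  linarith

end Pool.Agent.Helper24.Neg
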