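import Pool.Agent.Helper24.Neg.Final
import Pool.Agent.Helper14.NegEnd
import Pool.Agent.Helper14.NegCount

/-!
# The modules of helper14 in the form used by `Final`
-/

set_option autoImplicit false

namespace Pool.Agent.Helper24.Neg

open Finset Pool.Agent.Helper71.Neg

theorem endClique2 : EndClique2 := by
  intro s k t S r err U Ω _ _ _ _ ng ps hk hs D n K hsK hn δ Ω' _ w f lev A inp out hw hw1 hC
    hlev hr hout hsucc
  exact Pool.Agent.Helper14.NegEnd.end_clique hk hs D n K hsK hn δ Ω' w f lev A inp out hw hw1 hC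
    hlev hr hout hsucc

theorem endCount2 : EndCount2 (fun _ G => Pool.Agent.Helper14.NegCount.numCliques G) := by
  intro s k t S r err U Ω _ _ _ _ ng ps hk n hn2 D w₀ _ hnw hn δ Ω' _ w f lev A inp out hw hw1 hC
    hlev hr hout hsucc
  exact Pool.Agent.Helper14.NegCount.end_count hk n hn2 D w₀ hnw hn δ Ω' w f lev A inp out hw hw1
    hC hlev hr hout hsucc

end Pool.Agent.Helper24.Neg
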